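import Pool.Agent.Helper93.KS.St
import Pool.Agent.Helper15.AB.StBV

/-!
# Project KS (MP_77e955_nt), second part: the exceptional set for `P_3` has at most `(log N) ^ A` elements

THEOREM 3. For a constant `A` and all large `N`, all but at most `(log N) ^ A` of the `n ≤ N` have at least `c n / (log n) ^ 3` numbers `k ≤ n / 2` such
that `k (n - k) - 1` has at most three prime factors.

Overview. `sx n p` is (up to the `p ∣ n ^ 2 - 4`) the value at `p` of the primitive character `ψ_n` attached to the real quadratic field of discriminant `n ^ 2 - 4`. Different `n`, `n'`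
in `(N, 2 N]` have different `ψ_n`, `ψ_n'` (otherwise `(n ^ 2 - 4)(n' ^ 2 - 4)` is a square). If a box sum `∑_{p} ψ_n p / p` is `≥ η`, then some dyadic part is `≥ η / (4 log N)`, and the multiplicative large sieve
(`StML`, for the `m`-th power of the dyadic part, `y ^ m ≥ N ^ 4`) shows that this happens for at most `(log N) ^ A` characters.
-/

set_option autoImplicit false

noncomputable section

namespace Pool.Agent.Helper93.KS

open Finset Filter Topology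
open Pool.Agent.Helper15.AB (SP StML)
open Pool.Agent.Helper9.TW (gm)
open Pool.Agent.Helper93.KP (gk vk tk rn gn TK qk StRTS)

/-- (RNL, no hypotheses.) PROOF. For `p ∤ n ^ 2 - 4`, `p ≥ 7`: `sx n p = rn n p - 1`, and `p ∣ gk n (30 r)` iff `(60 r - n) ^ 2 = n ^ 2 - 4` modulo `p` (multiply `k ^ 2 - n k + 1`, `k = 30 r`, by `4`); `r ↦ 60 r - n` is a bijection of `ZMod p`, so `rn n p` is the number of
the square roots of `n ^ 2 - 4`, which is `1 + legendreSym p (n ^ 2 - 4)` (`legendreSym.card_sqrts`), and `legendreSym.to_jacobiSym`. -/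
def StRNL : Prop := ∀ n p : ℕ, p.Prime → 7 ≤ p → ¬ (p : ℤ) ∣ (n : ℤ) ^ 2 - 4 → sx n p = (jacobiSym ((n : ℤ) ^ 2 - 4) p : ℝ)

/-- (JCH, no hypotheses.) The primitive character of a discriminant. PROOF. `x ↦ J(D | x.val)` for units `x` of `ZMod (4 D)` (and `0` otherwise) is a Dirichlet character: for odd `b` the value `J(D | b)` depends on `b` modulo `4 D` only (`jacobiSym.mod_right`), `J(D | b b') = J(D | b) J(D | b')`
(`jacobiSym.mul_right`). Take its primitive character; the conductor divides `4 D`, and the values at the `p` prime to `4 D` are the same (compare the proof of `StNP` of project AB, `Helper15/AB`, and `Helper63/T3/M_CHR.lean`). -/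
def StJCH : Prop := ∀ D : ℕ, 1 ≤ D → ∃ (f : ℕ) (_ : NeZero f) (ψ : DirichletCharacter ℂ f), ψ.IsPrimitive ∧ f ≤ 4 * D ∧
  ∀ p : ℕ, p.Prime → p ≠ 2 → ¬ p ∣ D → ψ (p : ZMod f) = ((jacobiSym (D : ℤ) p : ℤ) : ℂ)

/-- (SQR, no hypotheses.) PROOF. Suppose `A` is not a square: `A = s w ^ 2`, `s > 1` squarefree. If an odd prime `l` divides `s`, `s = l s'`, `l ∤ s'`: let `M` be the largest divisor of `120 A` prime to `l`, `a` a quadratic nonresidue modulo `l`, and `b ≡ a` modulo `l`, `b ≡ 1` modulo `M`, `b ≥ 1`. Then `b` is prime to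
`30 A`, `b ≡ 1` modulo `8`, `J(l | b) = J(b | l) = J(a | l) = - 1` (reciprocity), and `J(s' | b) = 1` (`8 s' ∣ M` or `jacobiSym.mod_right`: `b ≡ 1` modulo `4 s'`), so `J(A | b) = J(s | b) J(w | b) ^ 2 = - 1`. If `s = 2`: `b ≡ 5` modulo `8` and `b ≡ 1` modulo the odd part of `15 A`: `J(2 | b) = - 1`. In both cases some prime `p ∣ b` has
`J(A | p) = - 1` (the product over the prime factors), `p ≥ 7`, `p ∤ A`. -/
def StSQR : Prop := ∀ A : ℕ, 1 ≤ A → (∀ p : ℕ, p.Prime → 7 ≤ p → ¬ p ∣ A → jacobiSym (A : ℤ) p = 1) → IsSquare A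

/-- (PEL, no hypotheses.) PROOF. `z < n n' - 4` because `(n n' - 4) ^ 2 - (n ^ 2 - 4)(n' ^ 2 - 4) = 4 (n' - n) ^ 2 > 0`; `z ≡ n n'` modulo `2` because `z ^ 2 ≡ n ^ 2 n' ^ 2` modulo `4`. So `z ≤ n n' - 6` and `z ^ 2 ≤ (n n' - 6) ^ 2` gives `3 n n' ≤ n ^ 2 + n' ^ 2 + 5`, i.e. `(n' - n)(2 n - n') ≤ 5 - n ^ 2 < 0`
(`n ^ 2 + n' ^ 2 - 3 n n' = - (n' - n)(2 n - n') - n ^ 2`): contradiction. -/
def StPEL : Prop := ∀ n n' z : ℤ, 3 ≤ n → n < n' → n' < 2 * n → 0 ≤ z → (n ^ 2 - 4) * (n' ^ 2 - 4) ≠ z ^ 2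

/-- (PSI, assume `hR : StRNL`, `hJ : StJCH`, `hS : StSQR`, `hP : StPEL`.) The characters. PROOF. For `n ≥ 3` apply JCH to `D = n ^ 2 - 4 ≥ 5` and RNL. If `n < n'` are in `(N, 2 N]` (`n' < 2 n`) and `ψ n`, `ψ n'` have the same values at all `k : ℕ`, then `J(D | p) = J(D' | p) = ± 1`, so `J(D D' | p) = 1`, for all primes `p ≥ 7`, `p ∤ D D'`:
SQR and PEL give a contradiction. (`ψ n` for `n < 3` arbitrary, e.g. the trivial character modulo `1`.) -/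
def StPSI : Prop := ∃ (f : ℕ → ℕ) (_ : ∀ n, NeZero (f n)) (ψ : (n : ℕ) → DirichletCharacter ℂ (f n)),
  (∀ n : ℕ, 3 ≤ n → (ψ n).IsPrimitive ∧ f n ≤ 4 * n ^ 2 ∧
    ∀ p : ℕ, p.Prime → 7 ≤ p → ¬ (p : ℤ) ∣ (n : ℤ) ^ 2 - 4 → ψ n (p : ZMod (f n)) = (sx n p : ℂ)) ∧
  ∀ N : ℕ, 3 ≤ N → ∀ n ∈ Ioc N (2 * N), ∀ n' ∈ Ioc N (2 * N), n ≠ n' →
    ∃ k : ℕ, ψ n (k : ZMod (f n)) ≠ ψ n' (k : ZMod (f n'))

/-- (TRF, no hypotheses.) PROOF. Group the `n ∈ E` by `r = f n` (`1 ≤ r ≤ Q`); for fixed `r` the map `n ↦ ψ n` (transported to modulus `r`) is injective into the primitive characters modulo `r`, and `G ≥ 0`. -/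
def StTRF : Prop := ∀ (E : Finset ℕ) (f : ℕ → ℕ) (_ : ∀ n, NeZero (f n)) (ψ : (n : ℕ) → DirichletCharacter ℂ (f n)) (Q : ℕ),
  (∀ n ∈ E, (ψ n).IsPrimitive ∧ f n ≤ Q) →
  (∀ n ∈ E, ∀ n' ∈ E, n ≠ n' → ∃ k : ℕ, ψ n (k : ZMod (f n)) ≠ ψ n' (k : ZMod (f n'))) →
  ∀ G : (ℕ → ℂ) → ℝ, (∀ x, 0 ≤ G x) →
    ∑ n ∈ E, G (fun k => ψ n (k : ZMod (f n))) ≤ ∑ r ∈ Icc 1 Q, SP G r

/-- (LSC, assume `hT : StTRF`, `hM : StML`.) Large sieve. PROOF. `(∑_{p ∈ S} ψ p / p) ^ m = ∑_{M ≤ (2 y) ^ m} a_M ψ M` with `a_M = T_M / M`, `T_M` the number of the tuples in `S ^ m` with product `M`; `T_M ≤ m ^ m` (the entries are among the at most `m` prime factors of `M`), so `∑ a_M ^ 2 ≤ m ^ m (∑_{p ∈ S} p ^ (-2)) ^ m ≤ m ^ m (2 / y) ^ m`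
(at most `y + 1 ≤ 2 y` integers in `[y, 2 y)`). TRF and StML with `Q = 16 N ^ 2` (`r / φ(r) ≥ 1`): `|E| δ ^ (2 m) ≤ C₀ ((2 y) ^ m + 1 + 256 N ^ 4) m ^ m (2 / y) ^ m ≤ C`. -/
def StLSC : Prop := ∀ m : ℕ, 1 ≤ m → ∃ C : ℝ, 0 < C ∧ ∀ (N : ℕ) (y δ : ℝ) (S E : Finset ℕ) (f : ℕ → ℕ) (_ : ∀ n, NeZero (f n))
  (ψ : (n : ℕ) → DirichletCharacter ℂ (f n)), 1 ≤ N → 2 ≤ y → (N : ℝ) ^ 4 ≤ y ^ m → 0 < δ →
  (∀ p ∈ S, p.Prime ∧ y ≤ (p : ℝ) ∧ (p : ℝ) < 2 * y) → (∀ n ∈ E, (ψ n).IsPrimitive ∧ f n ≤ 16 * N ^ 2) →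
  (∀ n ∈ E, ∀ n' ∈ E, n ≠ n' → ∃ k : ℕ, ψ n (k : ZMod (f n)) ≠ ψ n' (k : ZMod (f n'))) →
  (∀ n ∈ E, δ ≤ ‖∑ p ∈ S, ψ n (p : ZMod (f n)) / p‖) → (E.card : ℝ) * δ ^ (2 * m) ≤ C

open Classical in
/-- (DYB, assume `hP : StPSI`, `hL : StLSC`.) One box. PROOF. `P = N ^ (i ω)`, `ω = 1 / (100 u)`. For `n ∈ (N, 2 N]` the sum `∑_{p ∈ bq N ω i} (sx n p - ψ n p) / p` has terms only for the at most `2 log₂ (2 N)` primes `p ∣ n ^ 2 - 4` and is at most `4 log₂ (2 N) / P ≤ η / 2` in absolute value for large `N`. So for a counted `n`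
`‖∑_{p ∈ bq N ω i} ψ n p / p‖ ≥ η / 2`. Split `bq N ω i` into the sets `S_j` of its primes in `[2 ^ j P, 2 ^ (j + 1) P)`, `j < J`, `J ≤ 2 log N + 1`: some `S_j` has a sum `≥ η / (2 J) ≥ 1 / (log N) ^ 2`. LSC with `m = ⌈4 / (i ω)⌉`, `y = 2 ^ j P` (`y ^ m ≥ N ^ 4`): at most `C (log N) ^ (4 m)` values `n` for each `j`. -/
def StDYB : Prop := ∀ (u i : ℕ) (η : ℝ), 1 ≤ u → 1 ≤ i → 0 < η → ∃ A : ℕ, ∀ᶠ N : ℕ in atTop,
  (((Ioc N (2 * N)).filter (fun n => η ≤ |∑ p ∈ bq N (1 / (100 * u)) i, sx n p / p|)).card : ℝ) ≤ Real.log N ^ A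

open Classical in
/-- (EXL, assume `hD : StDYB`, `h1 : StEX1`, `hA : StAB`.) PROOF. As EX2 (`Helper55/KS/M_EX2.lean`) with DYB instead of EXB: the boxes with `kf1 = 2` satisfy GD for large `n` (AB); for the finitely many others use EX1 and DYB with `η / 2`. (The number of boxes and the powers of the logarithm: take the maximum plus one.) -/
def StEXL : Prop := ∀ (u j0 : ℕ) (η : ℝ), 50 ≤ j0 → j0 ≤ 19 * u → 0 < η → ∃ A : ℕ, ∀ᶠ N : ℕ in atTop,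
  (((Ioc N (2 * N)).filter (fun n => ¬ GD 1 19 78 kf1 u j0 η n)).card : ℝ) ≤ Real.log N ^ A

open Classical in
/-- (EXD, assume `hE : StEXL`.) Dyadic summation. PROOF. Let EXL hold for `N ≥ N₁`. The `n ≤ N` are in `[1, 2 N₁]` or in a range `(2 ^ k, 2 ^ (k + 1)]` with `N₁ ≤ 2 ^ k ≤ N`; there are at most `1 + 2 log N` such ranges with at most `(log N) ^ A` exceptional `n` each. -/
def StEXD : Prop := ∀ (u j0 : ℕ) (η : ℝ), 50 ≤ j0 → j0 ≤ 19 * u → 0 < η → ∃ A : ℕ, ∀ᶠ N : ℕ in atTop,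
  (((Icc 1 N).filter (fun n => ¬ GD 1 19 78 kf1 u j0 η n)).card : ℝ) ≤ Real.log N ^ A

end Pool.Agent.Helper93.KS
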