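import Pool.Agent.Helper93.KS.St

/-!
# Project KS: the final forms
-/

set_option autoImplicit false

noncomputable section

namespace Pool.Agent.Helper93.KS

open Finset Filter Topology

open Classical in
/-- the integers `1 ≤ k ≤ n / 2` for which `k (n - k) - 1` is larger than `1` and has at most `r` prime factors -/
def kv (r n : ℕ) : Finset ℕ :=
  (Icc 1 (n / 2)).filter (fun k => 2 ≤ k * (n - k) - 1 ∧ (k * (n - k) - 1).primeFactorsList.length ≤ r)

theorem kv_eq (r n : ℕ) (hn : 4 ≤ n) : kv r n = kr r n := by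
  ext k
  unfold kv kr
  simp only [mem_filter, mem_Icc]
  constructor
  · rintro ⟨h1, _, h3⟩
    exact ⟨h1, by rw [ArithmeticFunction.cardFactors_apply]; exact h3⟩
  · rintro ⟨h1, h3⟩
    refine ⟨h1, ?_, by rw [ArithmeticFunction.cardFactors_apply] at h3; exact h3⟩
    have h4 : k ≤ n / 2 := h1.2
    have h5 : k + k ≤ n := by omega
    obtain ⟨m, rfl⟩ : ∃ m, n = k + m := ⟨n - k, by omega⟩
    have h6 : k + m - k = m := by omega
    rw [h6]
    have h7 : 1 ≤ k := h1.1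
    have h8 : 2 ≤ m := by omega
    have h9 : 3 ≤ k * m := by nlinarith
    omega

theorem fin5 (h : StFN5) : ∃ c : ℝ, 0 < c ∧ ∃ N₀ : ℕ, ∀ n : ℕ, N₀ ≤ n →
    c * n / Real.log n ^ 3 ≤ ((kv 5 n).card : ℝ) := by
  obtain ⟨c, hc, n₀, hn⟩ := h
  refine ⟨c, hc, max n₀ 4, ?_⟩
  intro n hnn
  rw [kv_eq 5 n ((le_max_right _ _).trans hnn)]
  exact hn n ((le_max_left _ _).trans hnn)

open Classical in
theorem fin3 (hF : StFN3) (hE : StEXA) : ∃ c : ℝ, 0 < c ∧ ∃ N₀ : ℕ, ∀ N : ℕ, N₀ ≤ N →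
    (((Icc 1 N).filter (fun n => ((kv 3 n).card : ℝ) < c * n / Real.log n ^ 3)).card : ℝ) ≤
      (N : ℝ) ^ (3 / 5 : ℝ) := by
  obtain ⟨u, j0, hu, hj50, hj0, η, c, hη, hc, n₀, hn⟩ := hF
  obtain ⟨N₀, hN⟩ := hE u j0 η hj50 hj0 hη
  refine ⟨c, hc, max (max N₀ 1) ((max n₀ 4) ^ 2), ?_⟩
  intro N hNN
  obtain ⟨E, hEc, hEn⟩ := hN N ((le_max_left _ _).trans ((le_max_left _ _).trans hNN))
  have hN1 : 1 ≤ N := (le_max_right _ _).trans ((le_max_left _ _).trans hNN)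
  have hN2 : (max n₀ 4) ^ 2 ≤ N := (le_max_right _ _).trans hNN
  have hsub : (Icc 1 N).filter (fun n => ((kv 3 n).card : ℝ) < c * n / Real.log n ^ 3) ⊆ E := by
    intro n hn1
    rw [mem_filter] at hn1
    by_contra hnE
    obtain ⟨h1, h2⟩ := hEn n hn1.1 hnE
    have h3 : max n₀ 4 ≤ n := by
      have h4 : (((max n₀ 4 : ℕ) : ℝ) ^ 2) ≤ N := by exact_mod_cast hN2
      have h5 : ((max n₀ 4 : ℕ) : ℝ) ≤ (N : ℝ) ^ (1 / 2 : ℝ) := by
        rw [← Real.sqrt_eq_rpow]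
        exact Real.le_sqrt_of_sq_le h4
      exact_mod_cast h5.trans h1
    have h6 := hn n ((le_max_left _ _).trans h3) h2
    rw [kv_eq 3 n ((le_max_right _ _).trans h3)] at hn1
    linarith [hn1.2]
  have h1 : (((Icc 1 N).filter (fun n => ((kv 3 n).card : ℝ) < c * n / Real.log n ^ 3)).card : ℝ) ≤ (E.card : ℝ) := by
    exact_mod_cast card_le_card hsub
  refine h1.trans (hEc.trans ?_)
  exact Real.rpow_le_rpow_of_exponent_le (by exact_mod_cast hN1) (by norm_num)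

end Pool.Agent.Helper93.KS
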