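import Pool.Agent.Helper93.KS.St3
import Pool.Agent.Helper93.KS.Fin

/-!
# Project KS: the final form of the third part
-/

set_option autoImplicit false

noncomputable section

namespace Pool.Agent.Helper93.KS

open Finset Filter Topology

open Classical in
theorem fin3C (hF : StFN3) (hE : StEXC) : ∃ c : ℝ, 0 < c ∧ ∃ C N₀ : ℕ, ∀ N : ℕ, N₀ ≤ N →
    ((Ioc N (2 * N)).filter (fun n => ((kv 3 n).card : ℝ) < c * n / Real.log n ^ 3)).card ≤ C := by
  obtain ⟨u, j0, hu, hj50, hj0, η, c, hη, hc, n₀, hn⟩ := hF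
  obtain ⟨C, hC⟩ := hE u j0 η hj50 hj0 hη
  obtain ⟨N₀, hN⟩ := eventually_atTop.1 hC
  refine ⟨c, hc, C, max N₀ (max n₀ 4), ?_⟩
  intro N hNN
  refine (card_le_card ?_).trans (hN N ((le_max_left _ _).trans hNN))
  intro n hn1
  rw [mem_filter] at hn1 ⊢
  refine ⟨hn1.1, fun h4 => ?_⟩
  have h3 : max n₀ 4 ≤ n := ((le_max_right _ _).trans hNN).trans (mem_Ioc.1 hn1.1).1.le
  have h6 := hn n ((le_max_left _ _).trans h3) h4
  rw [kv_eq 3 n ((le_max_right _ _).trans h3)] at hn1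
  linarith [hn1.2]

end Pool.Agent.Helper93.KS
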