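import Pool.Agent.Helper93.KS.All5
import Pool.Agent.Helper93.KS.Fin3
import Pool.Agent.Helper13.KS.M_FS1
import Pool.Agent.Helper29.KS.M_T1
import Pool.Agent.Helper34.KS.M_PT3
import Pool.Agent.Helper6.KS.M_FN3
import Pool.Agent.Helper62.KS.M_PSI
import Pool.Agent.Helper65.KS.M_RNL
import Pool.Agent.Helper43.KS.M_JCH
import Pool.Agent.Helper89.KS.M_SQR
import Pool.Agent.Helper42.KS.M_PEL
import Pool.Agent.Helper85.KS.M_SIG
import Pool.Agent.Helper9.KS.M_OFS
import Pool.Agent.Helper10.KS.M_DUA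
import Pool.Agent.Helper80.KS.M_DYC
import Pool.Agent.Helper80.KS.M_EX1
import Pool.Agent.Helper53.KS.M_EXC

/-!
# Project KS: assembly, three prime factors with a bounded number of exceptional `n` in `(N, 2 N]`
-/

set_option autoImplicit false

noncomputable section

namespace Pool.Agent.Helper93.KS

open Pool.Agent

theorem pT1 : StT1 := Helper29.KS.hT1 pDI pDK pDU pDL

theorem pFS1 : StFS1 := Helper13.KS.hFS1 pBXQ pT1 Helper95.KS.hCEL

theorem pFN3 : StFN3 := Helper6.KS.hFN3 pFS1 pCQ Helper9.KS.hPSQ Helper34.KS.hPT3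

theorem pPSI : StPSI := Helper62.KS.hPSI Helper65.KS.hRNL Helper43.KS.hJCH Helper89.KS.hSQR Helper42.KS.hPEL

theorem pSIG : StSIG := Helper85.KS.hSIG Helper18.TR.bonf Helper18.TR.flMain Helper18.TR.pf_Level Helper15.AB.hMT

theorem pDUA : StDUA := Helper10.KS.hDUA pSIG Helper9.KS.hOFS

theorem pDYC : StDYC := Helper80.KS.hDYC pPSI pDUA Helper60.GP.pM2

theorem pEX1 : StEX1 := Helper80.KS.hEX1 Helper60.GP.pM2 Helper93.KP.hRTS

theorem pEXC : StEXC := Helper53.KS.hEXC pDYC pEX1 pAB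

open Finset in
open Classical in
theorem pFin3 : ∃ c : ℝ, 0 < c ∧ ∃ C N₀ : ℕ, ∀ N : ℕ, N₀ ≤ N →
    ((Ioc N (2 * N)).filter (fun n => ((kv 3 n).card : ℝ) < c * n / Real.log n ^ 3)).card ≤ C := fin3C pFN3 pEXC

end Pool.Agent.Helper93.KS
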