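import Pool.Agent.Helper93.KS.St

/-!
# Project KS, modules BXQ, AD2, FN3E
-/

set_option autoImplicit false

noncomputable section

namespace Pool.Agent.Helper93.KS

open Finset Filter Topology
open Pool.Agent.Helper9.TW (gm)
open Pool.Agent.Helper93.KP (gk vk tk rn gn TK qk)

private theorem lev (N Nm : ℕ) (ω : ℝ) (hω : 0 < ω) (h : N ≤ Nm) (hN : (Nm : ℝ) * ω ≤ 2) : (N : ℝ) * ω ≤ 2 := by
  have : (N : ℝ) ≤ Nm := by exact_mod_cast h
  nlinarith

theorem hBXQ (hT : StWT) (hU : StWU) (hL : StWL) : StBXQ := by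
  intro κ ω j0 Nm hκ hω hj0 hNm
  refine ⟨?_, ?_, ?_, ?_, ?_, ?_, ?_, ?_⟩
  · intro N j u u' h1 h2
    by_cases hj : j0 ≤ j
    · exact (hT κ ω j0 N j u u' hκ hω hj0 hj).1 h1 h2
    · have hV : ∀ (a : ℕ) (g : ℕ → ℝ), Vq a ω g j0 j = 1 := by
        intro a g
        unfold Vq
        rw [Ico_eq_empty_of_le (by omega)]
        simp
      obtain ⟨B, Lam, hB, hs, hd, hm⟩ := h1
      refine ⟨B, Lam, hB, hs, hd, ?_⟩
      intro ε hε
      obtain ⟨η, hη, h⟩ := hm ε hε
      refine ⟨η, hη, ?_⟩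
      filter_upwards [h] with a ha g hg
      have := ha g hg
      rw [hV] at this ⊢
      linarith
  · intro N j u u' h1 h2
    by_cases hj : j0 ≤ j
    · exact (hT κ ω j0 N j u u' hκ hω hj0 hj).2.1 h1 h2
    · have hV : ∀ (a : ℕ) (g : ℕ → ℝ), Vq a ω g j0 j = 1 := by
        intro a g
        unfold Vq
        rw [Ico_eq_empty_of_le (by omega)]
        simp
      obtain ⟨B, Lam, hB, hs, hd, hm⟩ := h1
      refine ⟨B, Lam, hB, hs, hd, ?_⟩
      intro ε hε
      obtain ⟨η, hη, h⟩ := hm ε hε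
      refine ⟨η, hη, ?_⟩
      filter_upwards [h] with a ha g hg
      have := ha g hg
      rw [hV] at this ⊢
      linarith
  · intro N _
    exact (hT κ ω j0 N j0 0 0 hκ hω hj0 le_rfl).2.2.1
  · intro N _
    exact (hT κ ω j0 N j0 0 0 hκ hω hj0 le_rfl).2.2.2.1
  · intro N j u l hj h3 hN hu hl h1 h2
    exact hU κ ω j0 N j u l hκ hω hj0 hj h3 (lev N Nm ω hω hN hNm) hu hl h1 h2
  · intro N j u hj _ hu h1
    exact (hT κ ω j0 N j u u hκ hω hj0 hj).2.2.2.2.2 hu h1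
  · intro N j l u hj h2 hN hl hu h1 h3
    exact hL κ ω j0 N j l u hκ hω hj0 hj h2 (lev N Nm ω hω hN hNm) hl hu h1 h3
  · intro N j hj _
    exact (hT κ ω j0 N j 0 0 hκ hω hj0 hj).2.2.2.2.1

theorem hAD2 (hA : StAB) : StAD2 := by
  intro u j0 η hu hj0 hη
  have hω : (0 : ℝ) < 1 / (100 * u) := by
    have : (0 : ℝ) < u := by exact_mod_cast hu
    positivity
  have h1 : ∀ᶠ n : ℕ in atTop, ∀ i ∈ Ico j0 (11 * u) ∪ Ico (11 * u) (58 * u),
      Gb n (1 / (100 * u)) (gn n) i ≤ 2 * gm i + η := by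
    rw [Filter.eventually_all_finset]
    intro i hi
    have hi1 : 1 ≤ i := by
      rcases mem_union.1 hi with h | h
      · have := (mem_Ico.1 h).1; omega
      · have := (mem_Ico.1 h).1; omega
    exact hA _ η i hω hi1 hη
  filter_upwards [h1] with n hn
  refine ⟨⟨?_, ?_⟩, ?_⟩
  · intro p
    unfold gn
    positivity
  · intro i hi
    have := hn i (mem_union_left _ hi)
    push_cast
    exact this
  · intro i hi
    have := hn i (mem_union_right _ hi)
    unfold kf2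
    push_cast
    exact this

open Classical in
theorem hFN3E (hF : StFN3) (hE : StEXA) : StFN3E := by
  obtain ⟨u, j0, hu, hj50, hj0, η, c, hη, hc, n₀, hn⟩ := hF
  obtain ⟨N₀, hN⟩ := hE u j0 η hj50 hj0 hη
  refine ⟨c, hc, max (max N₀ 1) (n₀ ^ 2), ?_⟩
  intro N hNN
  obtain ⟨E, hEc, hEn⟩ := hN N ((le_max_left _ _).trans ((le_max_left _ _).trans hNN))
  have hN1 : 1 ≤ N := (le_max_right _ _).trans ((le_max_left _ _).trans hNN)
  have hN2 : n₀ ^ 2 ≤ N := (le_max_right _ _).trans hNN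
  have hsub : (Icc 1 N).filter (fun n => ((kr 3 n).card : ℝ) < c * n / Real.log n ^ 3) ⊆ E := by
    intro n hn1
    rw [mem_filter] at hn1
    by_contra hnE
    obtain ⟨h1, h2⟩ := hEn n hn1.1 hnE
    have h3 : n₀ ≤ n := by
      have h4 : ((n₀ : ℝ) ^ 2) ≤ N := by exact_mod_cast hN2
      have h5 : (n₀ : ℝ) ≤ (N : ℝ) ^ (1 / 2 : ℝ) := by
        rw [← Real.sqrt_eq_rpow]
        exact Real.le_sqrt_of_sq_le h4
      exact_mod_cast h5.trans h1
    have h6 := hn n h3 h2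
    linarith [hn1.2]
  have h1 : (((Icc 1 N).filter (fun n => ((kr 3 n).card : ℝ) < c * n / Real.log n ^ 3)).card : ℝ) ≤ (E.card : ℝ) := by
    exact_mod_cast card_le_card hsub
  refine h1.trans (hEc.trans ?_)
  exact Real.rpow_le_rpow_of_exponent_le (by exact_mod_cast hN1) (by norm_num)

end Pool.Agent.Helper93.KS
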