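import Pool.Agent.Helper93.KP.All
import Pool.Agent.Helper93.KS.Fin
import Pool.Agent.Helper93.KS.M_Small
import Pool.Agent.Helper10.KS.M_DU
import Pool.Agent.Helper22.KS.M_DL
import Pool.Agent.Helper25.KS.M_FN5
import Pool.Agent.Helper26.KS.M_WL
import Pool.Agent.Helper32.KS.M_PRQ
import Pool.Agent.Helper53.KS.M_AB
import Pool.Agent.Helper58.KS.M_RB
import Pool.Agent.Helper60.KS.M_WT
import Pool.Agent.Helper62.KS.M_PT5
import Pool.Agent.Helper66.KS.M_TYI
import Pool.Agent.Helper68.KS.M_WU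
import Pool.Agent.Helper69.KS.M_BMQ
import Pool.Agent.Helper72.KS.M_T2
import Pool.Agent.Helper73.KS.M_DI
import Pool.Agent.Helper74.KS.M_DK
import Pool.Agent.Helper84.KS.M_CQ
import Pool.Agent.Helper88.KS.M_VB
import Pool.Agent.Helper9.KS.M_PSQ
import Pool.Agent.Helper94.KS.M_FS2
import Pool.Agent.Helper95.KS.M_CEL

/-!
# Project KS: assembly, five prime factors for every large `n`
-/

set_option autoImplicit false

noncomputable section

namespace Pool.Agent.Helper93.KS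

open Pool.Agent

theorem pWU : StWU := Helper68.KS.hWU Helper69.KS.hBMQ Helper32.KS.hPRQ

theorem pWL : StWL := Helper26.KS.hWL Helper69.KS.hBMQ

theorem pBXQ : StBXQ := hBXQ Helper60.KS.hWT pWU pWL

theorem pDI : StDI := Helper73.KS.hDI Helper88.KS.hVB

theorem pDK : StDK := Helper74.KS.hDK Helper58.KS.hRB

theorem pDU : StDU := Helper10.KS.hDU Helper58.KS.hRB Helper88.KS.hVB

theorem pDL : StDL := Helper22.KS.hDL Helper58.KS.hRB

theorem pT2 : StT2 := Helper72.KS.hT2 pDI pDK pDU pDL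

theorem pFS2 : StFS2 := Helper94.KS.hFS2 pBXQ pT2 Helper95.KS.hCEL

theorem pTYI : StTYI := Helper66.KS.hTYI Helper18.TR.pf_Level Helper93.KP.hRTS Helper15.AB.hDB

theorem pCQ : StCQ := Helper84.KS.hCQ Helper93.KP.pC8P (Helper81.KP.hVLP Helper15.AB.hMT Helper93.KP.hRTS)
  Helper9.TW.hC9 pTYI Helper69.KS.hBMQ

theorem pAB : StAB := Helper53.KS.hAB Helper60.GP.pM2 Helper93.KP.hRTS

theorem pFN5 : StFN5 := Helper25.KS.hFN5 pFS2 pCQ (hAD2 pAB) Helper9.KS.hPSQ Helper62.KS.hPT5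

theorem pFin5 : ∃ c : ℝ, 0 < c ∧ ∃ N₀ : ℕ, ∀ n : ℕ, N₀ ≤ n →
    c * n / Real.log n ^ 3 ≤ ((kv 5 n).card : ℝ) := fin5 pFN5

end Pool.Agent.Helper93.KS
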