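import Pool.Agent.Helper93.KP.St

/-!
# Project KS (MP_77e955_nt): `k (n - k) - 1` with at most five prime factors for every large `n`, with at most three for
almost all `n`

Definitions. The sieve is a box sieve of dimension at most `κ ∈ {1, 2}`, uniform in the densities.
-/

set_option autoImplicit false

noncomputable section

namespace Pool.Agent.Helper93.KS

open Finset Filter Topology
open Pool.Agent.Helper9.TW (gm)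
open Pool.Agent.Helper93.KP (gk vk tk rn gn TK qk)

/-- the primes of box `i` -/
def bq (a : ℕ) (ω : ℝ) (i : ℕ) : Finset ℕ :=
  (range ⌈(a : ℝ) ^ (((i : ℝ) + 1) * ω)⌉₊).filter (fun p => p.Prime ∧ (a : ℝ) ^ ((i : ℝ) * ω) ≤ (p : ℝ))

/-- the primes of the boxes `j0 ≤ i < j` -/
def Pq (a : ℕ) (ω : ℝ) (j0 j : ℕ) : Finset ℕ := (Ico j0 j).biUnion (bq a ω)

/-- weights bounded by `B` with support in the squarefree products `q ≤ a ^ x` of primes of the boxes `j0 ≤ i < j` -/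
def SW (a : ℕ) (ω : ℝ) (j0 j : ℕ) (x B : ℝ) (lam : ℕ → ℝ) : Prop :=
  ∀ q : ℕ, |lam q| ≤ B ∧ (lam q ≠ 0 → Squarefree q ∧ (∀ p : ℕ, p.Prime → p ∣ q → p ∈ Pq a ω j0 j) ∧
    (q : ℝ) ≤ (a : ℝ) ^ x)

/-- `lam` multiplied by the primes of box `j` -/
def bmq (a : ℕ) (ω : ℝ) (j : ℕ) (lam : ℕ → ℝ) (q : ℕ) : ℝ :=
  ∑ p ∈ (bq a ω j).filter (fun p => p ∣ q), lam (q / p)

open Classical in
/-- products of two different primes of box `j` -/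
def prq (a : ℕ) (ω : ℝ) (j q : ℕ) : ℝ :=
  if ∃ p ∈ bq a ω j, ∃ p' ∈ bq a ω j, p < p' ∧ q = p * p' then 1 else 0

open Classical in
/-- indicator function of the integers without prime factors in the boxes `j0 ≤ i < j` -/
def idq (a : ℕ) (ω : ℝ) (j0 j m : ℕ) : ℝ := if ∃ p ∈ Pq a ω j0 j, p ∣ m then 0 else 1

/-- number of prime factors in box `j` -/
def ejq (a : ℕ) (ω : ℝ) (j m : ℕ) : ℕ := ((bq a ω j).filter (fun p => p ∣ m)).card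

/-- the main term for the density `g` -/
def mg (a : ℕ) (g lam : ℕ → ℝ) : ℝ := ∑ q ∈ range (a ^ 2 + 1), lam q * ∏ p ∈ q.primeFactors, g p

/-- density of box `i` -/
def Gb (a : ℕ) (ω : ℝ) (g : ℕ → ℝ) (i : ℕ) : ℝ := ∑ p ∈ bq a ω i, g p

/-- product of the box densities -/
def Vq (a : ℕ) (ω : ℝ) (g : ℕ → ℝ) (j0 j : ℕ) : ℝ := ∏ i ∈ Ico j0 j, (1 - Gb a ω g i)

/-- densities of dimension at most `κ` (up to `η`) in the boxes `j0 ≤ i < j` -/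
def AD (κ a : ℕ) (ω η : ℝ) (j0 j : ℕ) (g : ℕ → ℝ) : Prop :=
  (∀ p, 0 ≤ g p) ∧ ∀ i ∈ Ico j0 j, Gb a ω g i ≤ κ * gm i + η

/-- there are upper bound weights of level `a ^ (N ω)` for the boxes below `j` with main term at most
`(1 + u) Vq`, uniformly in the densities of dimension at most `κ` -/
def UQ (κ : ℕ) (ω : ℝ) (j0 N j : ℕ) (u : ℝ) : Prop := ∃ (B : ℝ) (Lam : ℕ → ℕ → ℝ), 0 ≤ B ∧
  (∀ᶠ a : ℕ in atTop, SW a ω j0 j ((N : ℝ) * ω) B (Lam a)) ∧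
  (∀ᶠ a : ℕ in atTop, ∀ m : ℕ, 1 ≤ m → idq a ω j0 j m ≤ ∑ q ∈ m.divisors, Lam a q) ∧
  ∀ ε : ℝ, 0 < ε → ∃ η : ℝ, 0 < η ∧ ∀ᶠ a : ℕ in atTop, ∀ g : ℕ → ℝ, AD κ a ω η j0 j g →
    mg a g (Lam a) ≤ (1 + u + ε) * Vq a ω g j0 j

/-- the same for lower bounds, with main term at least `(1 - l) Vq` -/
def LQ (κ : ℕ) (ω : ℝ) (j0 N j : ℕ) (l : ℝ) : Prop := ∃ (B : ℝ) (Lam : ℕ → ℕ → ℝ), 0 ≤ B ∧
  (∀ᶠ a : ℕ in atTop, SW a ω j0 j ((N : ℝ) * ω) B (Lam a)) ∧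
  (∀ᶠ a : ℕ in atTop, ∀ m : ℕ, 1 ≤ m → ∑ q ∈ m.divisors, Lam a q ≤ idq a ω j0 j m) ∧
  ∀ ε : ℝ, 0 < ε → ∃ η : ℝ, 0 < η ∧ ∀ᶠ a : ℕ in atTop, ∀ g : ℕ → ℝ, AD κ a ω η j0 j g →
    (1 - l - ε) * Vq a ω g j0 j ≤ mg a g (Lam a)

/-- the product for the maximal densities -/
def VV (κ j0 j : ℕ) : ℝ := ∏ i ∈ Ico j0 j, (1 - (κ : ℝ) * gm i)

/-- the rules of the recursion for the relative errors -/
structure Bx (κ j0 Nm : ℕ) (U L : ℕ → ℕ → ℝ → Prop) : Prop where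
  um : ∀ N j u u', U N j u → u ≤ u' → U N j u'
  lm : ∀ N j l l', L N j l → l ≤ l' → L N j l'
  u0 : ∀ N, N ≤ Nm → U N j0 0
  l0 : ∀ N, N ≤ Nm → L N j0 0
  us : ∀ N j u l, j0 ≤ j → 3 * (j + 1) ≤ N → N ≤ Nm → 0 ≤ u → 0 ≤ l → U N j u → L (N - (j + 1)) j l →
    U N (j + 1) ((u + κ * gm j * l + (κ * gm j) ^ 2 / (2 * VV κ j0 j)) / (1 - κ * gm j))
  uk : ∀ N j u, j0 ≤ j → N ≤ Nm → 0 ≤ u → U N j u → U N (j + 1) ((u + κ * gm j) / (1 - κ * gm j))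
  ls : ∀ N j l u, j0 ≤ j → 2 * (j + 1) ≤ N → N ≤ Nm → 0 ≤ l → 0 ≤ u → L N j l → U (N - (j + 1)) j u →
    L N (j + 1) ((l + κ * gm j * u) / (1 - κ * gm j))
  lz : ∀ N j, j0 ≤ j → N ≤ Nm → L N j 1

/-- upper bound sieve with relative error `c` for `s ≤ log D / log z` -/
def HU (κ S : ℕ) (s c : ℝ) : Prop := ∀ η : ℝ, 0 < η → ∃ js : ℕ, ∀ j0 : ℕ, js ≤ j0 →
  ∀ U L : ℕ → ℕ → ℝ → Prop, Bx κ j0 (S * j0) U L → ∀ j N : ℕ, j0 ≤ j → N ≤ S * j0 →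
    s * j ≤ (N : ℝ) → U N j (c + η)

/-- lower bound sieve with relative error `c` for `s ≤ log D / log z` -/
def HL (κ S : ℕ) (s c : ℝ) : Prop := ∀ η : ℝ, 0 < η → ∃ js : ℕ, ∀ j0 : ℕ, js ≤ j0 →
  ∀ U L : ℕ → ℕ → ℝ → Prop, Bx κ j0 (S * j0) U L → ∀ j N : ℕ, j0 ≤ j → N ≤ S * j0 →
    s * j ≤ (N : ℝ) → L N j (c + η)

/-- the choice of parameters: level `n ^ (99/100)`, `z = n ^ (z₀ / 100)`, Richert's weights up to `n ^ (J₀ / 100)` with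
the factor `lam`, densities `kf u j` in the boxes `z₀ u ≤ j < J₀ u`, `ω = 1 / (100 u)` -/
def FSx (κ z₀ J₀ : ℕ) (lam : ℝ) (kf : ℕ → ℕ → ℕ) : Prop := ∀ θ : ℝ, 0 < θ → θ ≤ 1 / 100 → ∃ u j0 : ℕ,
  1 ≤ u ∧ 50 ≤ j0 ∧ j0 ≤ z₀ * u ∧ (j0 : ℝ) * (1 / (100 * u)) ≤ θ ∧ ∃ (l0 u0 : ℝ) (w : ℕ → ℝ),
    0 ≤ l0 ∧ 0 ≤ u0 ∧ (∀ j, 0 ≤ w j) ∧
    LQ κ (1 / (100 * u)) j0 (99 * u) (z₀ * u) l0 ∧ UQ κ (1 / (100 * u)) j0 (99 * u) (z₀ * u) u0 ∧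
    (∀ j ∈ Ico (z₀ * u) (J₀ * u), UQ κ (1 / (100 * u)) j0 (99 * u - (j + 1)) (z₀ * u) (w j)) ∧
    0 < (1 - l0) - 2 / 1000 * (1 + u0) - 1001 / 1000 * lam *
      ∑ j ∈ Ico (z₀ * u) (J₀ * u), (kf u j : ℝ) * gm j * (1 - (j : ℝ) / (J₀ * u)) * (1 + w j)

/-- the densities of `n` are admissible -/
def GD (κ z₀ J₀ : ℕ) (kf : ℕ → ℕ → ℕ) (u j0 : ℕ) (η : ℝ) (n : ℕ) : Prop :=
  AD κ n (1 / (100 * u)) η j0 (z₀ * u) (gn n) ∧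
  ∀ j ∈ Ico (z₀ * u) (J₀ * u), Gb n (1 / (100 * u)) (gn n) j ≤ (kf u j : ℝ) * gm j + η

/-- density two in all boxes -/
def kf2 (_u _j : ℕ) : ℕ := 2

open Classical in
/-- density one in the boxes of `[n ^ 0.21, n ^ 0.29)` and `[n ^ 0.41, n ^ 0.59)`, otherwise two -/
def kf1 (u j : ℕ) : ℕ := if (21 * u ≤ j ∧ j < 29 * u) ∨ (41 * u ≤ j ∧ j < 59 * u) then 1 else 2

open Classical in
/-- the character value `(n ^ 2 - 4 / p)`, with the value `1` for `p ∣ n ^ 2 - 4` -/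
def sx (n p : ℕ) : ℝ := if (p : ℤ) ∣ (n : ℤ) ^ 2 - 4 then 1 else (rn n p : ℝ) - 1

/-- the `k ≤ n / 2` such that `k (n - k) - 1` has at most `r` prime factors -/
def kr (r n : ℕ) : Finset ℕ :=
  (Icc 1 (n / 2)).filter (fun k => ArithmeticFunction.cardFactors (k * (n - k) - 1) ≤ r)

end Pool.Agent.Helper93.KS
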