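import Pool.Agent.Helper93.KS.St2
import Pool.Agent.Helper93.KS.Fin

/-!
# Project KS: the final form of the second part
-/

set_option autoImplicit false

noncomputable section

namespace Pool.Agent.Helper93.KS

open Finset Filter Topology

open Classical in
theorem fin3L (hF : StFN3) (hE : StEXD) : ∃ c : ℝ, 0 < c ∧ ∃ A N₀ : ℕ, ∀ N : ℕ, N₀ ≤ N →
    (((Icc 1 N).filter (fun n => ((kv 3 n).card : ℝ) < c * n / Real.log n ^ 3)).card : ℝ) ≤ Real.log N ^ A := by
  obtain ⟨u, j0, hu, hj50, hj0, η, c, hη, hc, n₀, hn⟩ := hF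
  obtain ⟨A, hA⟩ := hE u j0 η hj50 hj0 hη
  have hlog : ∀ᶠ N : ℕ in atTop, ((max n₀ 4 : ℕ) : ℝ) + 1 ≤ Real.log N :=
    (Real.tendsto_log_atTop.comp tendsto_natCast_atTop_atTop).eventually (eventually_ge_atTop _)
  obtain ⟨N₀, hN⟩ := eventually_atTop.1 (hA.and hlog)
  refine ⟨c, hc, A + 1, N₀, ?_⟩
  intro N hNN
  obtain ⟨h1, h2⟩ := hN N hNN
  have hsub : (Icc 1 N).filter (fun n => ((kv 3 n).card : ℝ) < c * n / Real.log n ^ 3) ⊆
      range (max n₀ 4) ∪ (Icc 1 N).filter (fun n => ¬ GD 1 19 78 kf1 u j0 η n) := by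
    intro n hn1
    rw [mem_filter] at hn1
    rw [mem_union, mem_range, mem_filter]
    by_cases h3 : n < max n₀ 4
    · exact Or.inl h3
    · right
      rw [not_lt] at h3
      refine ⟨hn1.1, fun h4 => ?_⟩
      have h6 := hn n ((le_max_left _ _).trans h3) h4
      rw [kv_eq 3 n ((le_max_right _ _).trans h3)] at hn1
      linarith [hn1.2]
  have h3 : (((Icc 1 N).filter (fun n => ((kv 3 n).card : ℝ) < c * n / Real.log n ^ 3)).card : ℝ) ≤
      ((max n₀ 4 : ℕ) : ℝ) + (((Icc 1 N).filter (fun n => ¬ GD 1 19 78 kf1 u j0 η n)).card : ℝ) := by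
    have h4 := (card_le_card hsub).trans (card_union_le _ _)
    rw [card_range] at h4
    exact_mod_cast h4
  have h5 : (0 : ℝ) ≤ ((max n₀ 4 : ℕ) : ℝ) := by positivity
  have h6 : (1 : ℝ) ≤ Real.log N ^ A := one_le_pow₀ (by linarith)
  rw [pow_succ]
  nlinarith

end Pool.Agent.Helper93.KS
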