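import Pool.Agent.Helper93.KS.Defs
import Pool.Agent.Helper60.GP.St

/-!
# Project KS (MP_77e955_nt): statements of the modules, with complete proofs

THEOREM 1. For every large `n` there are at least `n / (log n) ^ 4` numbers `k ≤ n / 2` such that `k (n - k) - 1` has at most five
prime factors. THEOREM 2. For all but `N ^ (3/5)` of the `n ≤ N` the same holds with at most three prime factors.

Overview. `k = 30 j`, `j ≤ n / 60`; trivial level of distribution `n ^ (1 - ε)`. The sieve of the primes `p ≥ n ^ θ` is a box sieve: the weights depend on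
the boxes only, the main terms on the densities `gn n p = rn n p / p ≤ 2 / p`, and the relative error of the main term is largest
for the largest densities. Boxes `n ^ (i ω) ≤ p < n ^ ((i + 1) ω)`. Part W: the steps of the recursion; part D: the deterministic recursion
for the relative errors, dimension `κ ∈ {1, 2}`; part C: combination with the fundamental lemma for `p < n ^ θ` and Richert's weights; part M: for all but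
`N ^ (3/5)` of the `n` the densities of many boxes are at most `gm i + η` (moments of the character sums). Models: the modules of project TW (`Pool/Agent/Helper9/TW/All.lean` has
the names) and of project KP (`Pool/Agent/Helper93/KP/All.lean`); proved facts of these projects may be imported
(`Pool.Agent.Helper15.AB.hDB : StDB`, `hMT : StMT`, `Pool.Agent.Helper9.TW.pMER : StMER`, `Pool.Agent.Helper9.TW.hC9 : StC9`, `Pool.Agent.Helper18.TR.pf_Level : StLevel`,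
`Pool.Agent.Helper93.KP.pC8P : StC8P`, `Pool.Agent.Helper93.KP.hRTS : StRTS`, `Pool.Agent.Helper81.KP.hVLP`, `Pool.Agent.Helper93.KP.pWEI : StWEI`,
`Pool.Agent.Helper60.GP.pM2 : StM2`, windows of `∑ 1 / p`).
-/

set_option autoImplicit false

noncomputable section

namespace Pool.Agent.Helper93.KS

open Finset Filter Topology
open Pool.Agent.Helper15.AB (ee Kl StDB StMT)
open Pool.Agent.Helper9.TW (gm Qs fm StMER StC9)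
open Pool.Agent.Helper18.TR (StLevel)
open Pool.Agent.Helper93.KP (gk vk tk rn gn TK qk StC8P StVLP StRTS StWEI)

/-! ## W. the weights -/

/-- (BMQ, no hypotheses.) Multiplication by the primes of box `j'`. PROOF. If `lam q' ≠ 0` all primes of `q'` are in boxes `i < j ≤ j'`, so they are `< a ^ (j ω) ≤ a ^ (j' ω) ≤ p` for
`p` in box `j'` (`a ≥ 2`); so `p ∤ q'`, the number `p q'` is squarefree, `p` is its only prime factor in box `j'` (hence the bound `B`), and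
`p q' ≤ a ^ ((j' + 1) ω) a ^ x`. Main term: `(p, q') ↦ p q'`, `∏_{l ∣ p q'} g l = g p ∏_{l ∣ q'} g l`; all numbers are `≤ a ^ 2`. Divisor sums: for `p ∣ m`, `lam q' ≠ 0`: `q' ∣ m / p` iff
`q' ∣ m`. Compare `Helper8/TW/M_WFB.lean`, `Helper49/TW/M_MSB.lean`, `Helper49/TW/M_INQ.lean`. -/
def StBMQ : Prop := ∀ (a j0 j j' : ℕ) (ω x B : ℝ) (lam g : ℕ → ℝ), 2 ≤ a → 0 < ω → 0 ≤ B → 0 ≤ x → j0 ≤ j → j ≤ j' →
  x + ((j' : ℝ) + 1) * ω ≤ 2 → SW a ω j0 j x B lam →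
  SW a ω j0 (j' + 1) (x + ((j' : ℝ) + 1) * ω) B (bmq a ω j' lam) ∧
  mg a g (bmq a ω j' lam) = Gb a ω g j' * mg a g lam ∧
  ∀ m : ℕ, 1 ≤ m → ∑ q ∈ m.divisors, bmq a ω j' lam q = (ejq a ω j' m : ℝ) * ∑ q ∈ m.divisors, lam q

/-- (PRQ, no hypotheses.) Pairs of primes of one box. PROOF. Support clear (`p p' < a ^ (2 (j + 1) ω)`). `mg` is `∑_{p < p'} g p g p' = ((∑ g) ^ 2 - ∑ g ^ 2) / 2`
(all products are `≤ a ^ 2`). The divisor sum counts the pairs `p < p'` of primes of the box dividing `m`. Compare `Helper42/TW/M_PAR.lean`, `Helper49/TW/M_INQ.lean`. -/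
def StPRQ : Prop := ∀ (a j0 j : ℕ) (ω x : ℝ) (g : ℕ → ℝ), 2 ≤ a → 0 < ω → j0 ≤ j → 2 * (((j : ℝ) + 1) * ω) ≤ x → x ≤ 2 →
  (∀ p, 0 ≤ g p) →
  SW a ω j0 (j + 1) x 1 (prq a ω j) ∧ mg a g (prq a ω j) ≤ Gb a ω g j ^ 2 / 2 ∧
  ∀ m : ℕ, 1 ≤ m → ∑ q ∈ m.divisors, prq a ω j q = (ejq a ω j m : ℝ) * ((ejq a ω j m : ℝ) - 1) / 2

/-- (WT, no hypotheses.) The trivial rules. PROOF. Monotonicity: `Vq ≥ 0` for small `η` (`gm i ≤ 1 / i`, `κ gm i + η ≤ 2/3 + η < 1` for `i ≥ j0 ≥ 3`, `Gb ≥ 0`). Start: the delta function at `1` (`Pq a ω j0 j0 = ∅`,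
`mg = 1`, `Vq = 1`). Zero weights: `mg = 0 ≥ - ε Vq`. Keeping the weights (`idq` decreases in `j`, AD for `j + 1` contains AD for `j`): with `V = Vq .. j`, `G = Gb .. j ≤ κ gm j + η`, `Vq .. (j + 1) = V (1 - G)`:
`(1 + u + ε) V = (1 - G) V (1 + (u + ε + G) / (1 - G))` and `(u + ε + G) / (1 - G)` is increasing in `G ∈ [0, 1)` (`u ≥ 0`), so for small `ε`, `η` it is at most
`(u + κ gm j) / (1 - κ gm j) + ε'`. -/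
def StWT : Prop := ∀ (κ : ℕ) (ω : ℝ) (j0 N j : ℕ) (u u' : ℝ), κ ≤ 2 → 0 < ω → 3 ≤ j0 → j0 ≤ j →
  (UQ κ ω j0 N j u → u ≤ u' → UQ κ ω j0 N j u') ∧ (LQ κ ω j0 N j u → u ≤ u' → LQ κ ω j0 N j u') ∧
  UQ κ ω j0 N j0 0 ∧ LQ κ ω j0 N j0 0 ∧ LQ κ ω j0 N j 1 ∧
  (0 ≤ u → UQ κ ω j0 N j u → UQ κ ω j0 N (j + 1) ((u + κ * gm j) / (1 - κ * gm j)))

/-- (WU, assume `hB : StBMQ`, `hP : StPRQ`.) The upper step. PROOF. Weights `Lam₁ - bmq Lam₂ + prq` (box `j`); levels `(N - (j + 1)) ω + (j + 1) ω = N ω`, `2 (j + 1) ω ≤ N ω ≤ 2`. With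
`e = ejq a ω j m`, `I = idq j0 j m`: `idq j0 (j + 1) m = I 1[e = 0]` and the divisor sum is at least `I - e I + e (e - 1) / 2 ≥ I 1[e = 0]` (`(e - 1)(e - 2) ≥ 0`, `0 ≤ I ≤ 1`). Main term, with `V = Vq .. j`, `G = Gb .. j`:
at most `(1 + u + ε) V - G (1 - l - ε) V + G ^ 2 / 2 = (1 - G) V (1 + (u + ε + G (l + ε) + G ^ 2 / (2 V)) / (1 - G))`, and `Vq .. (j + 1) = V (1 - G)`. The bracket is increasing in `G` and decreasing in `V`;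
`G ≤ κ gm j + η`, `V ≥ ∏ (1 - κ gm i - η)`, which tends to `VV κ j0 j > 0` as `η → 0`. So for small `ε`, `η` it is at most the new error plus `ε'`. Compare `Helper49/TW/M_US.lean`. -/
def StWU : Prop := ∀ (κ : ℕ) (ω : ℝ) (j0 N j : ℕ) (u l : ℝ), κ ≤ 2 → 0 < ω → 3 ≤ j0 → j0 ≤ j → 3 * (j + 1) ≤ N →
  (N : ℝ) * ω ≤ 2 → 0 ≤ u → 0 ≤ l → UQ κ ω j0 N j u → LQ κ ω j0 (N - (j + 1)) j l →
  UQ κ ω j0 N (j + 1) ((u + κ * gm j * l + (κ * gm j) ^ 2 / (2 * VV κ j0 j)) / (1 - κ * gm j))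

/-- (WL, assume `hB : StBMQ`.) The lower step. PROOF. Weights `Lam₁ - bmq Lam₂`; the divisor sum is at most `I - e I ≤ I 1[e = 0]`. Main term at least
`(1 - l - ε) V - G (1 + u + ε) V = (1 - G) V (1 - (l + ε + G (u + ε)) / (1 - G))`. Compare `Helper49/TW/M_LS.lean`. -/
def StWL : Prop := ∀ (κ : ℕ) (ω : ℝ) (j0 N j : ℕ) (l u : ℝ), κ ≤ 2 → 0 < ω → 3 ≤ j0 → j0 ≤ j → 2 * (j + 1) ≤ N →
  (N : ℝ) * ω ≤ 2 → 0 ≤ l → 0 ≤ u → LQ κ ω j0 N j l → UQ κ ω j0 (N - (j + 1)) j u →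
  LQ κ ω j0 N (j + 1) ((l + κ * gm j * u) / (1 - κ * gm j))

/-- (BXQ, assume `hT : StWT`, `hU : StWU`, `hL : StWL`.) The rules hold. PROOF. Immediate (`N ω ≤ Nm ω ≤ 2`). -/
def StBXQ : Prop := ∀ (κ : ℕ) (ω : ℝ) (j0 Nm : ℕ), κ ≤ 2 → 0 < ω → 3 ≤ j0 → (Nm : ℝ) * ω ≤ 2 →
  Bx κ j0 Nm (fun N j u => UQ κ ω j0 N j u) (fun N j l => LQ κ ω j0 N j l)

/-! ## D. the deterministic recursion -/

/-- (VB, no hypotheses.) PROOF. `gm i ≤ 1 / i`, `∏ (1 - 2 / i) = (j0 - 2)(j0 - 1) / ((j - 2)(j - 1)) ≥ (j0 / j) ^ 2 (1 - 2 / j0)(1 - 1 / j0)`. -/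
def StVB : Prop := ∀ κ j0 j : ℕ, κ ≤ 2 → 8 ≤ j0 → j0 ≤ j → ((j0 : ℝ) / j) ^ 2 / 2 ≤ VV κ j0 j

/-- (RB, no hypotheses.) PROOF. `j₁ = max(j0, ⌊K N / (i + 1)⌋) ≤ j` (`K N < (i + 1) j`). `- log (1 - x) ≤ x + x ^ 2` for `0 ≤ x ≤ 1/2`, `∑_{j₁ ≤ j' < j} gm j' = log (j / j₁)`, `gm j' ≤ 1 / j'`, so the product is at most
`(j / j₁) ^ κ exp(8 / j₁)`, and `j₁ ≥ K N / (i + 1) - 1 ≥ i j / (i + 1) - 1`, so `j / j₁ ≤ (i + 1) / i + C / j0` (`j₁ ≥ j0`). -/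
def StRB : Prop := ∀ κ K i : ℕ, κ ≤ 2 → 1 ≤ K → 1 ≤ i → ∃ (C : ℝ) (js : ℕ), 0 ≤ C ∧ 8 ≤ js ∧ ∀ j0 j N : ℕ, js ≤ j0 → j0 ≤ j →
  i * j ≤ K * N → K * N < (i + 1) * j → ∃ j₁ : ℕ, j0 ≤ j₁ ∧ j₁ ≤ j ∧ (j₁ = j0 ∨ (i + 1) * j₁ ≤ K * N) ∧
  ∏ j' ∈ Ico j₁ j, 1 / (1 - (κ : ℝ) * gm j') ≤ (((i : ℝ) + 1) / i) ^ κ + C / j0

/-- (DI, assume `hV : StVB`.) The starting estimate. PROOF. `A = 1750`, `E(s) = A e^(-s)`, `7.467 < log A`. Induction on `j`, for all `N` at once; `j = j0`: `u0`, `l0` and `um`, `lm`. Write `s = N / j`,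
`s' = N / (j + 1)`, `s - s' = s' / j`, `s₋ = (N - j - 1) / j = s - 1 - 1 / j`, `g = κ gm j ≤ 2 / j`; `s ≤ S`. Lower bound: if `E(s') ≥ 1` use `lz`. Otherwise `s' ≥ 7.467` and rule `ls` with
`E(s)` and `E(s₋)` (`3 j ≤ N - (j + 1)`): `(E(s) + g E(s₋)) / (1 - g) ≤ E(s')` because `1 + g e^(1 + 1/j) ≤ (1 - g) e^(s' / j)`: this follows from `e^(s'/j) ≥ 1 + s'/j` and
`s' ≥ 2 (1 + e^(1 + 1/j) + s' / j)`, true for large `j` as `2 (1 + e) < 7.4366`. There is room: `(1 - g) E(s') - (E(s) + g E(s₋)) ≥ E(s) · 0.01 / j`. Upper bound, `3 (j + 1) ≤ N`, `s' ≥ 7.467`: rule `us` with the same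
numbers; the additional term `g ^ 2 / (2 VV)` is at most `(4 / j ^ 2) S ^ 2` (VB: `VV ≥ (j0 / j) ^ 2 / 2 ≥ 1 / (2 S ^ 2)` as `3 j ≤ N ≤ S j0`) and `≤ E(S) · 0.01 / j` for large `j`. Upper bound, `3 (j + 1) ≤ N`,
`s' < 7.467`: rule `uk`: `(E(s) + g) / (1 - g) ≤ E(s')` follows from `2 (1 + E(s)(1 + s' / j)) ≤ E(s) s'`, i.e. `E(s)(s' - 2 - 2 s' / j) ≥ 2`, true because `3 ≤ s'`, `s ≤ s' + 8 / j` and
`1750 e^(-s)(s - 2) ≥ 5` for `3 ≤ s ≤ 7.47`. -/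
def StDI : Prop := ∀ κ S : ℕ, κ ≤ 2 → ∃ js : ℕ, ∀ j0 : ℕ, js ≤ j0 → ∀ U L : ℕ → ℕ → ℝ → Prop,
  Bx κ j0 (S * j0) U L → ∀ j N : ℕ, j0 ≤ j → N ≤ S * j0 →
  L N j (1750 * Real.exp (-((N : ℝ) / j))) ∧ (3 * j ≤ N → U N j (1750 * Real.exp (-((N : ℝ) / j))))

/-- (DK, assume `hR : StRB`.) Keeping. PROOF. `r = ((i + 1) / i) ^ κ`. Let `η > 0`, `η'` small, `j0` large, `i j ≤ K N`. If `(i + 1) j ≤ K N` use the hypothesis at `(N, j)` (`c ≤ r c + (r - 1)`). Otherwise take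
`j₁` from RB, start with `U N j₁ (c + η')` (hypothesis, or `u0` and `um`), and apply `uk` for `j₁ ≤ j' < j`: the number `1 + u` is multiplied by `R = ∏ 1 / (1 - κ gm j') ≤ r + C / j0`. So the final value is at most
`(1 + c + η') R - 1 ≤ r c + (r - 1) + η`. -/
def StDK : Prop := ∀ (κ S K i : ℕ) (c : ℝ), κ ≤ 2 → 1 ≤ K → 1 ≤ i → 0 ≤ c → HU κ S (((i : ℝ) + 1) / K) c →
  HU κ S ((i : ℝ) / K) ((((i : ℝ) + 1) / i) ^ κ * c + ((((i : ℝ) + 1) / i) ^ κ - 1))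

/-- (DU, assume `hR : StRB`, `hV : StVB`.) PROOF. As DK with rule `us` (`3 (j' + 1) ≤ 3 j ≤ N`) and `L (N - (j' + 1)) j' (l + η')` (second hypothesis: `K (N - j' - 1) ≥ (i - K) j'`). The number `u + (l + η')` goes to
`(u + l + η' + κ ^ 2 gm ^ 2 / (2 VV)) / (1 - κ gm)`, so the final value is at most `R (c + η' + ∑ κ ^ 2 gm ^ 2 / (2 VV)) + (R - 1)(l + η')`; the sum is at most `∑_{j' ≥ j₁} C S ^ 2 / j' ^ 2 ≤ C' / j0`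
(VB: `VV ≥ 1 / (2 S ^ 2)` as `3 j' ≤ N ≤ S j0`). Compare `Helper6/TW/M_D2.lean`. -/
def StDU : Prop := ∀ (κ S K i : ℕ) (c l : ℝ), κ ≤ 2 → 1 ≤ K → 3 * K ≤ i → 0 ≤ c → 0 ≤ l →
  HU κ S (((i : ℝ) + 1) / K) c → HL κ S (((i : ℝ) - K) / K) l →
  HU κ S ((i : ℝ) / K) ((((i : ℝ) + 1) / i) ^ κ * c + ((((i : ℝ) + 1) / i) ^ κ - 1) * l)

/-- (DL, assume `hR : StRB`.) PROOF. As DU with rule `ls` (`2 (j' + 1) ≤ 2 j ≤ N`; start `l0`, `lm`). Compare `Helper6/TW/M_D3.lean`. -/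
def StDL : Prop := ∀ (κ S K i : ℕ) (c u : ℝ), κ ≤ 2 → 1 ≤ K → 2 * K ≤ i → 0 ≤ c → 0 ≤ u →
  HL κ S (((i : ℝ) + 1) / K) c → HU κ S (((i : ℝ) - K) / K) u →
  HL κ S ((i : ℝ) / K) ((((i : ℝ) + 1) / i) ^ κ * c + ((((i : ℝ) + 1) / i) ^ κ - 1) * u)

/-- (T2, assume `hI : StDI`, `hK : StDK`, `hU : StDU`, `hL : StDL`.) The table for `κ = 2`. PROOF. `K = 16`, denominators `10 ^ 6`. DI: `HU 2 S 20 (4 / 10 ^ 6)`, `HL 2 S 20 (4 / 10 ^ 6)` (`1750 e^(-20) < 3.61 / 10 ^ 6`); `HU`, `HL` are monotone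
(a constant valid at `s` is valid at `s' ≥ s`, and larger constants are valid: `um`, `lm`). Let `U_i`, `L_i` be valid constants (times `10 ^ 6`) at `i / 16`, `1 ≤ i ≤ 319`. Start: `U_i = 10 ^ 9`, `L_i = 10 ^ 6` (`lz`; a start value for `U` comes from DK: it is simplest to define
the first pass for `U` without a minimum). One pass: `p = 4`; for `i = 319, ..., 1`: `p := min(U_i, ⌈((i + 1) ^ 2 p + (2 i + 1) x) / i ^ 2⌉)`, `x = L_{i - 16}` if `i ≥ 48` (DU) and `x = 10 ^ 6` otherwise (DK), `U_i := p`; then `p = 4`; for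
`i = 319, ..., 32`: `p := min(L_i, ⌈((i + 1) ^ 2 p + (2 i + 1) U_{i - 16}) / i ^ 2⌉)` (DL), `L_i := p`. After 24 passes: `L_144 = 3492`, `U_144 = 3498`, `U_112 = 73406`, `U_96 = 332841`, `U_88 = 586196`, `U_80 = 919302`, `U_72 = 1369513`,
`U_64 = 1998919`, `U_59 = 2528750`. In Lean as `Helper74/TW/M_D5.lean`: lists of natural numbers (`i` downwards), one lemma that a pass preserves validity, and `decide +kernel`. -/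
def StT2 : Prop := ∀ S : ℕ, HL 2 S 9 (40 / 10000) ∧ HU 2 S 9 (40 / 10000) ∧ HU 2 S 7 (740 / 10000) ∧
  HU 2 S 6 (3340 / 10000) ∧ HU 2 S (11 / 2) (5880 / 10000) ∧ HU 2 S 5 (9220 / 10000) ∧
  HU 2 S (9 / 2) (13730 / 10000) ∧ HU 2 S 4 (20030 / 10000) ∧ HU 2 S (59 / 16) (25330 / 10000)

/-- (T1, assume `hI : StDI`, `hK : StDK`, `hU : StDU`, `hL : StDL`.) The table for `κ = 1`. PROOF. As T2 with `(i + 1) / i` instead of its square: `⌈((i + 1) p + x) / i⌉`. After 18 passes: `L_83 = 3241`, `U_83 = 3221`, `U_65 = 28501`,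
`U_58 = 68505`, `U_53 = 127203`, `U_48 = 234037`, `U_41 = 444731`, `U_33 = 794973`, `U_26 = 1278239`, `U_17 = 2484370`. -/
def StT1 : Prop := ∀ S : ℕ, HL 1 S (83 / 16) (33 / 10000) ∧ HU 1 S (83 / 16) (33 / 10000) ∧
  HU 1 S (65 / 16) (286 / 10000) ∧ HU 1 S (58 / 16) (686 / 10000) ∧ HU 1 S (53 / 16) (1273 / 10000) ∧
  HU 1 S 3 (2342 / 10000) ∧ HU 1 S (41 / 16) (4450 / 10000) ∧ HU 1 S (33 / 16) (7955 / 10000) ∧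
  HU 1 S (26 / 16) (12790 / 10000) ∧ HU 1 S (17 / 16) (24850 / 10000)

/-- (CEL, no hypotheses.) PROOF. `∑ gm j` telescopes to `log (j2 / j1) ≤ (x - 1 / x) / 2`, `x = j2 / j1 ≥ 1`. And `gm j ≥ 1 / (j + 1)`, so `∑ gm j j / (J u) ≥ (1 / (J u)) ∑ (1 - 1 / (j + 1)) ≥ (j2 - j1) / J - (1 / (J u)) log (j2 / j1)`. -/
def StCEL : Prop := ∀ j1 j2 J : ℕ, 1 ≤ j1 → j1 ≤ j2 → j2 ≤ J → ∀ ε : ℝ, 0 < ε → ∃ u₀ : ℕ, ∀ u : ℕ, u₀ ≤ u → 1 ≤ u →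
  ∑ j ∈ Ico (j1 * u) (j2 * u), gm j * (1 - (j : ℝ) / (J * u)) ≤
    ((j2 : ℝ) ^ 2 - (j1 : ℝ) ^ 2) / (2 * j1 * j2) - ((j2 : ℝ) - j1) / J + ε

/-- (FS2, assume `hB : StBXQ`, `hT : StT2`, `hC : StCEL`.) PROOF. As `Helper49/TW/M_FS.lean`. Let `S = ⌈1.5 / θ⌉`, `u` large, `j0 = ⌊100 u θ⌋ ≥ 50`, `ω = 1 / (100 u)`; BXQ with `Nm = S j0` (`S j0 ω ≤ (1.5 / θ + 1) θ ≤ 2`, `S j0 ≥ 99 u` for large `u`). `l0 = u0 = 41 / 10000` from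
`s = 99 u / (11 u) = 9`. For `j` in the cells `[11, 22)`, `[22, 33)`, `[33, 38)`, `[38, 44)`, `[44, 49)`, `[49, 55)`, `[55, 58)` (times `u`) `99 u - (j + 1) ≥ s · 11 u` with `s = 7, 6, 11/2, 5, 9/2, 4, 59/16`; so `w j` = the constant of T2 plus `1 / 10000`. With CEL for the cells the sum is at most
`2.3396 + 0.001`, and `(1 - 0.0041) - 0.002 · 1.0041 - 1.001 · 0.392 · 2.341 > 0.07`. -/
def StFS2 : Prop := FSx 2 11 58 (392 / 1000) kf2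

/-- (FS1, assume `hB : StBXQ`, `hT : StT1`, `hC : StCEL`.) PROOF. As FS2. `s = 99 / 19 ≥ 83 / 16`. Cells `[19, 21)` (`kf = 2`), `[21, 29)` (1), `[29, 35)` (2), `[35, 41)` (2), `[41, 50)` (1), `[50, 59)` (1), `[59, 68)` (2), `[68, 78)` (2), with
`s = 65, 58, 53, 48, 41, 33, 26, 17` sixteenths (`(99 - j2) / 19 ≥ s`). The sum is at most `1.2526 + 0.001` and `(1 - 0.0034) - 0.002 · 1.0034 - 1.001 · 0.697 · 1.2536 > 0.11`. -/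
def StFS1 : Prop := FSx 1 19 78 (697 / 1000) kf1

/-! ## C. combination -/

/-- (TYI, assume `hLv : StLevel`, `hR : StRTS`, `hDB : StDB`.) Level of distribution. PROOF. `B₀` from `StLevel f`, `θ₁ = 1 / (1000 (B₀ + 1))`. Expand: `∑_{D ∈ fm i n θ f} (-1) ^ |D| ∑_q lam q #{j ≤ n / 60 : p ∣ gk n (30 j) for p ∈ D and for p ∣ q}` (`vk n (30 j) ≥ 1` is nonzero and `q ∣ vk` iff
all primes `p ∣ q` divide `gk n (30 j)`, `q` squarefree; `dvd_vk`). The primes of `D` are `< n ^ θ`, those of `q` are `≥ n ^ (j0 ω) ≥ n ^ θ`. By `Pool.Agent.Helper9.SU.cntT_ALL` (`E = 0`, `M = 1`, `T = D ∪ q.primeFactors`) the number is `(n / 60) ∏_{p ∈ D} gn n p ∏_{p ∣ q} gn n p` up to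
`∏ rn n p ≤ 2 ^ |T| ≤ τ(q ∏ D) ≤ C n ^ ε` (`rn n p ≤ 2`, StRTS; for `p = 2, 3, 5` `rn n p = 0` as `gk n (30 r) ≡ - 1`). At most `n ^ (θ B₀)` sets `D` (`D ↦ ∏ D` is injective) and `n ^ (99/100)` numbers `q`. -/
def StTYI : Prop := ∀ f : ℕ, ∃ θ₁ : ℝ, 0 < θ₁ ∧ ∀ θ : ℝ, 0 < θ → θ ≤ θ₁ → ∃ C : ℝ, 0 < C ∧
  ∀ (i n j0 j : ℕ) (ω x B : ℝ) (lam : ℕ → ℝ), 60 ≤ n → 0 < ω → θ ≤ (j0 : ℝ) * ω → 0 ≤ B → 0 ≤ x → x ≤ 99 / 100 →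
  SW n ω j0 j x B lam →
  |∑ j' ∈ Icc 1 (n / 60), tk i n θ f n (30 * j') * ∑ q ∈ (vk n (30 * j')).divisors, lam q -
    ((n / 60 : ℕ) : ℝ) * TK i n θ f n * mg n (gn n) lam| ≤ C * B * (n : ℝ) ^ (999 / 1000 : ℝ)

/-- (CQ, assume `h8 : StC8P`, `hV : StVLP`, `h9 : StC9`, `hT : StTYI`, `hB : StBMQ`.) PROOF. As `Helper29/KP/M_C10P.lean`, `Helper74/TW/M_C10.lean`. `f` from C8P, `θ₁` from TYI for `f`; FSx for `min(θ₁, 1/100)` gives `u`, `j0` and the weights `Lam⁻`, `Lam⁺`, `Lam_i`; `ω = 1 / (100 u)`, `θ = j0 ω`. For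
`j ≤ n / 60` use C9 with `I₀ = qk`, `A = idq` at `v = vk n (30 j)`, `t₀ = tk 0`, `t₁ = tk 1` (C8P with `a = n`), `Am`, `Ap` the divisor sums of `Lam⁻`, `Lam⁺` at `v ≥ 1`, `e i = ejq i`, `Aj i = e i ∑ Lam_i ≥ e i A`, `c i = lam (1 - i / (J₀ u)) ≥ 0`. Sum over `j ≤ n / 60` and apply TYI (for `Aj` with the
weights `bmq n ω i (Lam_i n)`, BMQ, level `(99 u - (i + 1)) ω + (i + 1) ω = 99/100`). With `V = ∏_{Qs} (1 - gn n p)`, `W = Vq n ω (gn n) j0 (z₀ u) > 0`, the main term is `(n / 60)(TK₀ m⁻ + (TK₁ - TK₀) m⁺ - ∑ c_i TK₀ Gb_i m_i)` with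
`m⁻ ≥ (1 - l0 - ε) W`, `m⁺ ≤ (1 + u0 + ε) W`, `m_i ≤ (1 + w_i + ε) W`, `0 ≤ Gb_i ≤ kf gm i + η`, `V ≤ TK₀ ≤ 1.001 V`, `- 0.002 V ≤ TK₁ - TK₀ ≤ 0` (if `m⁺ < 0` or `m_i < 0` the corresponding summand is `≥ 0`): for small `ε`, `η` it is at least `(n / 60) V W` times half of the number of FSx. `W ≥ ∏ (1 - κ gm i - η) ≥ c > 0`,
`V ≥ c / (log n) ^ 3` (VLP), and the errors are at most `C n ^ (999/1000)`. -/
def StCQ : Prop := ∀ (κ z₀ J₀ : ℕ) (lam : ℝ) (kf : ℕ → ℕ → ℕ), κ ≤ 2 → 0 < lam → 1 ≤ z₀ → z₀ ≤ J₀ → J₀ ≤ 98 →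
  (∀ u j, kf u j ≤ 2) → FSx κ z₀ J₀ lam kf → ∃ u j0 : ℕ, 1 ≤ u ∧ 50 ≤ j0 ∧ j0 ≤ z₀ * u ∧
  ∃ η c : ℝ, 0 < η ∧ 0 < c ∧ ∃ n₀ : ℕ, ∀ n : ℕ, n₀ ≤ n → GD κ z₀ J₀ kf u j0 η n →
    c * n / Real.log n ^ 3 ≤ ∑ j ∈ Icc 1 (n / 60), qk n ((j0 : ℝ) * (1 / (100 * u))) n (30 * j) *
      idq n (1 / (100 * u)) j0 (z₀ * u) (vk n (30 * j)) *
      (1 - ∑ i ∈ Ico (z₀ * u) (J₀ * u), lam * (1 - (i : ℝ) / (J₀ * u)) *
        (ejq n (1 / (100 * u)) i (vk n (30 * j)) : ℝ))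

/-- (AB, assume `hM : Pool.Agent.Helper60.GP.StM2`, `hR : StRTS`.) Every large `n` has densities of dimension two. PROOF. `0 ≤ gn n p ≤ 2 / p` for `p ≥ 7` (`StRTS`), the primes of the box `i ≥ 1` are `≥ 7` for large `n`, and
`∑_{p ∈ bq n ω i} 1 / p → log ((i + 1) / i) = gm i` (`n → ∞`) is `StM2` with `z = n`, exponents `i ω`, `(i + 1) ω`. -/
def StAB : Prop := ∀ (ω η : ℝ) (i : ℕ), 0 < ω → 1 ≤ i → 0 < η → ∀ᶠ n : ℕ in atTop, Gb n ω (gn n) i ≤ 2 * gm i + η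

/-- (AD2, assume `hA : StAB`.) PROOF. Finitely many boxes. -/
def StAD2 : Prop := ∀ (u j0 : ℕ) (η : ℝ), 1 ≤ u → 1 ≤ j0 → 0 < η → ∀ᶠ n : ℕ in atTop, GD 2 11 58 kf2 u j0 η n

open Classical in
/-- (PSQ, no hypotheses.) PROOF. `p ≥ 7` for large `n` (small `n`: large `C`). `p ∤ n ^ 2 - 4`: the numbers `j` with `p ^ 2 ∣ vk n (30 j)` are in at most two classes modulo `p ^ 2` (`r ≠ s` roots: `p ^ 2 ∣ (r - s)(30 n - 900 (r + s))`, and `p` does not divide both factors, otherwise `p ∣ n ^ 2 - 4`: `30 n ≡ 1800 r`,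
`n ≡ 60 r`, `30 n r - 900 r ^ 2 - 1 ≡ 900 r ^ 2 - 1`, `n ^ 2 ≡ 4 · 900 r ^ 2 ≡ 4`). `p ∣ n ^ 2 - 4`: at most one class modulo `p` (`30 r ≡ n / 2`), and there are at most `2 log₂ n` such primes. Total:
`∑_{p ≥ n ^ (11/100)} (2 n / p ^ 2) + 2 n ^ (82/100) + 2 log₂ n (n / n ^ (11/100) + 1) ≤ C n ^ (9/10)`. -/
def StPSQ : Prop := ∃ C : ℝ, 0 < C ∧ ∀ n : ℕ, 60 ≤ n →
  (((Icc 1 (n / 60)).filter (fun j => ∃ p : ℕ, p.Prime ∧ (n : ℝ) ^ (11 / 100 : ℝ) ≤ (p : ℝ) ∧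
    (p : ℝ) ≤ (n : ℝ) ^ (82 / 100 : ℝ) ∧ p ^ 2 ∣ vk n (30 * j))).card : ℝ) ≤ C * (n : ℝ) ^ (9 / 10 : ℝ)

/-- (PT5, no hypotheses.) PROOF. If some `p ^ 2 ∣ v`, `p` prime, then `p > n ^ (82/100)`, `v = p ^ 2 t`, `t < n ^ (36/100)`, so `Ω(t) ≤ 3` and `Ω(v) ≤ 5`. Otherwise `v` is squarefree; suppose `Ω(v) ≥ 6`. With `L = 0.58 log n`: `∑_{p ∣ v} (1 - log p / L) ≥ 6 - 2 / 0.58 > 2.5517`. The primes with `p ≥ n ^ 0.58` contribute at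
most `0`, the others are in a box `j` with `11 u ≤ j < 58 u`, and there `1 - log p / L ≤ 1 - j / (58 u)`. `0.392 · 2.5517 > 1`. Compare `Helper83/KP/M_PTP.lean`. -/
def StPT5 : Prop := ∀ (u n v : ℕ), 1 ≤ u → 2 ≤ n → 1 ≤ v → (v : ℝ) ≤ (n : ℝ) ^ 2 →
  (∀ p : ℕ, p.Prime → p ∣ v → (n : ℝ) ^ (11 / 100 : ℝ) ≤ (p : ℝ)) →
  (∀ p : ℕ, p.Prime → (p : ℝ) ≤ (n : ℝ) ^ (82 / 100 : ℝ) → ¬ p ^ 2 ∣ v) →
  ∑ j ∈ Ico (11 * u) (58 * u), 392 / 1000 * (1 - (j : ℝ) / (58 * u)) * (ejq n (1 / (100 * u)) j v : ℝ) < 1 →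
  ArithmeticFunction.cardFactors v ≤ 5

/-- (PT3, no hypotheses.) PROOF. As PT5: if `p ^ 2 ∣ v` then `v = p ^ 2 t`, `t < n ^ (36/100)`, `Ω(t) ≤ 1` (the primes are `≥ n ^ (19/100)`). Otherwise, if `Ω(v) ≥ 4`, `∑_{p ∣ v} (1 - log p / L) ≥ 4 - 2 / 0.78 > 1.4358`, `L = 0.78 log n`, and `0.697 · 1.4358 > 1`. -/
def StPT3 : Prop := ∀ (u n v : ℕ), 1 ≤ u → 2 ≤ n → 1 ≤ v → (v : ℝ) ≤ (n : ℝ) ^ 2 →
  (∀ p : ℕ, p.Prime → p ∣ v → (n : ℝ) ^ (19 / 100 : ℝ) ≤ (p : ℝ)) →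
  (∀ p : ℕ, p.Prime → (p : ℝ) ≤ (n : ℝ) ^ (82 / 100 : ℝ) → ¬ p ^ 2 ∣ v) →
  ∑ j ∈ Ico (19 * u) (78 * u), 697 / 1000 * (1 - (j : ℝ) / (78 * u)) * (ejq n (1 / (100 * u)) j v : ℝ) < 1 →
  ArithmeticFunction.cardFactors v ≤ 3

/-- (FN5, assume `hF : StFS2`, `hC : StCQ`, `hA : StAD2`, `hS : StPSQ`, `hP : StPT5`.) PROOF. CQ for `κ = 2`, `z₀ = 11`, `J₀ = 58`, `lam = 392/1000`, `kf2`, and AD2: the sum is at least `c n / (log n) ^ 3` for all large `n`. Every summand is at most `1`; remove the at most `C n ^ (9/10)` numbers `j` of PSQ. If a summand of another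
`j` is positive, `v = vk n (30 j)` (`1 ≤ v ≤ n ^ 2`) is prime to `30` (`30 ∣ v + 1`), no prime `7 ≤ p < n ^ θ` (`qk`) and no prime of a box `j0 ≤ i < 11 u` (`idq`) divides it, `θ = j0 ω`, so all its primes are `≥ n ^ (11/100)`; `p ^ 2 ∤ v` for `p ≤ n ^ (82/100)`. PT5: `Ω(v) ≤ 5`. `k = 30 j ≤ n / 2`. -/
def StFN5 : Prop := ∃ c : ℝ, 0 < c ∧ ∃ n₀ : ℕ, ∀ n : ℕ, n₀ ≤ n → c * n / Real.log n ^ 3 ≤ ((kr 5 n).card : ℝ)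

/-- (FN3, assume `hF : StFS1`, `hC : StCQ`, `hS : StPSQ`, `hP : StPT3`.) PROOF. As FN5 with CQ for `κ = 1`, `z₀ = 19`, `J₀ = 78`, `lam = 697/1000`, `kf1`, for the `n` with `GD`. -/
def StFN3 : Prop := ∃ u j0 : ℕ, 1 ≤ u ∧ 50 ≤ j0 ∧ j0 ≤ 19 * u ∧ ∃ η c : ℝ, 0 < η ∧ 0 < c ∧ ∃ n₀ : ℕ, ∀ n : ℕ, n₀ ≤ n →
  GD 1 19 78 kf1 u j0 η n → c * n / Real.log n ^ 3 ≤ ((kr 3 n).card : ℝ)

/-! ## M. the exceptional set -/

/-- (CS1, assume `hW : StWEI`.) Complete sums modulo a prime. PROOF. `rn n p = #{r < p : p ∣ 30 r (n - 30 r) - 1}`: for `p ∤ r` this means `n ≡ 30 r + (30 r)⁻¹`, for `p ∣ r` it is false. So `∑_{n < p} rn n p e(h n / p) = ∑_{r < p, p ∤ r} e((30 h r + h (30)⁻¹ r⁻¹) / p) = Kl p (30 h) (h c)`, `30 c ≡ 1`: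
at most `2 √p` if `p ∤ h` (StWEI, `τ(p) = 2`) and `= p - 1` if `p ∣ h`; subtract `∑_{n < p} e(h n / p) = p 1[p ∣ h]`. Finally `sx n p = rn n p - 1` except for the at most two classes `n ≡ ± 2`, where `rn n p = 1` (`n = ± 2 + p t`: `k (n - k) - 1 ≡ - (k ∓ 1) ^ 2`) and `sx n p = 1`; so the total is at
most `2 √p + 2 ≤ 4 √p` (`1 + 2` for `p ∣ h`). -/
def StCS1 : Prop := ∀ (p : ℕ) (h : ℤ), p.Prime → 7 ≤ p →
  ‖∑ n ∈ range p, (sx n p : ℂ) * ee ((h : ℝ) * n / p)‖ ≤ 4 * √(p : ℝ)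

/-- (CS2, assume `hC : StCS1`.) Products of primes. PROOF. Induction over `S`, for all `h` at once; `q = p q'`. Every `n < q` is `≡ q' x + p y` with unique `x < p`, `y < q'`; `e(h n / q) = e(h x / p) e(h y / q')`, `sx n p = sx (q' x) p` and `sx n l = sx (p y) l` for `l ∣ q'` (`sx n p` depends on `n` modulo `p` only). Substitute
`x ≡ q'⁻¹ x'`, `y ≡ p⁻¹ y'`: the sum is the product of the sums for `p` and `h (q')⁻¹`, and for `q'` and `h p⁻¹`. Compare `Helper38/KP/M_WEI.lean`. -/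
def StCS2 : Prop := ∀ (S : Finset ℕ) (h : ℤ), (∀ p ∈ S, p.Prime ∧ 7 ≤ p) →
  ‖∑ n ∈ range (∏ p ∈ S, p), ((∏ p ∈ S, sx n p : ℝ) : ℂ) * ee ((h : ℝ) * n / (∏ p ∈ S, p : ℕ))‖ ≤
    4 ^ S.card * √((∏ p ∈ S, p : ℕ) : ℝ)

/-- (CHS, assume `hC : StCS2`.) Intervals. PROOF. Completion, `q = ∏ S`: `f(n) = ∏ sx n p` is `q`-periodic, `f(n) = (1/q) ∑_{h < q} e(- h n / q) ∑_{m < q} f(m) e(h m / q)`, so `|∑_{n ∈ I} f(n)| ≤ (1/q) ∑_{h < q} |∑_{n ∈ I} e(- h n / q)| 4 ^ |S| √q`, and the geometric sums are `H` for `h = 0` and at most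
`q / (2 min(h, q - h))` otherwise: the total is at most `4 ^ |S| √q (H / q + 1 + log q)`. Compare `Helper9/KP/M_INS.lean`, `Helper30/TW/M_INC.lean` (`M_FJ.gg_bound`, `harm_le`). -/
def StCHS : Prop := ∀ (S : Finset ℕ) (E H : ℕ), (∀ p ∈ S, p.Prime ∧ 7 ≤ p) →
  |∑ n ∈ Ioc E (E + H), ∏ p ∈ S, sx n p| ≤ 4 ^ S.card * √((∏ p ∈ S, p : ℕ) : ℝ) *
    ((H : ℝ) / (∏ p ∈ S, p : ℕ) + 1 + Real.log (∏ p ∈ S, p : ℕ))

/-- (ESY, no hypotheses.) Elementary symmetric functions. PROOF. `e_k = ∑_{T ⊆ S, |T| = k} ∏_{p ∈ T} s p / p`. Then `e_1 e_{k-1} = k e_k + R`, where `R = ∑_{T', |T'| = k - 2} ∏_{T'} (s p / p) ∑_{p ∈ S, p ∉ T'} p ^ (-2)` consists of the terms with `p ∈ T`; `|R| ≤ (∑ p ^ (-2)) (∑ 1 / p) ^ (k - 2) ≤ 1 / P`. So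
`k |e_k| ≥ η |e_{k-1}| - 1 / P` and by induction `|e_k| ≥ (η / 2) ^ k / k!` if `P` is large in terms of `m`, `η`. -/
def StESY : Prop := ∀ (m : ℕ) (η : ℝ), 1 ≤ m → 0 < η → ∃ c P₀ : ℝ, 0 < c ∧ 7 ≤ P₀ ∧ ∀ (P : ℝ) (S : Finset ℕ) (s : ℕ → ℝ),
  P₀ ≤ P → (∀ p ∈ S, P ≤ (p : ℝ) ∧ s p ^ 2 = 1) → ∑ p ∈ S, (1 : ℝ) / p ≤ 1 → η ≤ |∑ p ∈ S, s p / p| →
  c ≤ |∑ T ∈ S.powersetCard m, ∏ p ∈ T, s p / p|

/-- (SEC, assume `hC : StCHS`.) The second moment. PROOF. `sx n p ^ 2 = 1` for `p ≥ 7` (`rn n p ∈ {0, 2}` for `p ∤ n ^ 2 - 4`, a quadratic equation with discriminant `n ^ 2 - 4` modulo `p`). Expand the square; for `T`, `T'` with `D = T ∩ T'`, `A = T \ T'`, `B = T' \ T`, `F = A ∪ B`, `|D| = d`: `∏_T sx ∏_{T'} sx = ∏_F sx`, so by CHS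
`|∑_n| ≤ 4 ^ (2 m) (N (∏ F) ^ (-1/2) + (1 + 2 m log P₂)(∏ F) ^ (1/2))`, with the factor `∏_T (1/p) ∏_{T'} (1/p) = ∏_D p ^ (-2) ∏_F p ^ (-1)`. Sum over all `D`, `A`, `B` of the sizes `d`, `m - d`, `m - d` (dropping disjointness; `∑_{|A| = k} ∏_A g ≤ (∑ g) ^ k`): at most
`C ∑_{d ≤ m} ((∑ p ^ (-2)) ^ d (∑ p ^ (-3/2)) ^ (2 m - 2 d) N + (1 + log P₂)(∑ p ^ (-2)) ^ d (∑ p ^ (-1/2)) ^ (2 m - 2 d)) ≤ C' (1 + log P₂) (N P ^ (-m) + P₂ ^ m)`, because (sums over the integers in `[P, P₂]`) `∑ p ^ (-2) ≤ 2 / P`, `∑ p ^ (-3/2) ≤ 4 / √P`, `∑ p ^ (-1/2) ≤ 4 √P₂`. -/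
def StSEC : Prop := ∀ m : ℕ, 1 ≤ m → ∃ C : ℝ, 0 < C ∧ ∀ (N : ℕ) (P P₂ : ℝ) (S : Finset ℕ),
  1 ≤ N → 7 ≤ P → P ≤ P₂ → (∀ p ∈ S, p.Prime ∧ P ≤ (p : ℝ) ∧ (p : ℝ) ≤ P₂) →
  ∑ n ∈ Ioc N (2 * N), (∑ T ∈ S.powersetCard m, ∏ p ∈ T, sx n p / p) ^ 2 ≤
    C * (1 + Real.log P₂) * (N * P ^ (-(m : ℝ)) + P₂ ^ m)

/-- (EXB, assume `hE : StESY`, `hS : StSEC`.) One box. PROOF. `sx n p ^ 2 = 1` for `p ≥ 7`, so by ESY (`s p = sx n p`) every counted `n` has `|e_m(n)| ≥ c`, and their number is at most `c ^ (-2) ∑_n e_m(n) ^ 2`. -/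
def StEXB : Prop := ∀ (m : ℕ) (η : ℝ), 1 ≤ m → 0 < η → ∃ C P₀ : ℝ, 0 < C ∧ 7 ≤ P₀ ∧ ∀ (N : ℕ) (P P₂ : ℝ) (S : Finset ℕ),
  1 ≤ N → P₀ ≤ P → P ≤ P₂ → (∀ p ∈ S, p.Prime ∧ P ≤ (p : ℝ) ∧ (p : ℝ) ≤ P₂) → ∑ p ∈ S, (1 : ℝ) / p ≤ 1 →
  (((Ioc N (2 * N)).filter (fun n => η ≤ |∑ p ∈ S, sx n p / p|)).card : ℝ) ≤
    C * (1 + Real.log P₂) * (N * P ^ (-(m : ℝ)) + P₂ ^ m)

/-- (EX1, assume `hM : Pool.Agent.Helper60.GP.StM2`, `hR : StRTS`.) The densities of `n ∈ (N, 2 N]` and the boxes of `N`. PROOF. `ω = 1 / (100 u)`. `Gb n ω (gn n) i = ∑_{p ∈ bq n ω i} rn n p / p` and `rn n p ≤ 1 + sx n p` for `p ≥ 7` (equality, or `rn n p ≤ 2 = 1 + sx n p`). By StM2 (`z = n`) `∑_{p ∈ bq n ω i} 1 / p ≤ gm i + η / 2` for large `n`, and the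
same for `N` (`gm i + η < 1` as `i ≥ 50`). The sets `bq n ω i` and `bq N ω i` differ only by primes in `[N ^ x, (2 N) ^ x)`, `x = i ω` or `(i + 1) ω`, and the sums of `1 / p` over these tend to `0` (StM2 with `z = N` and the exponents `x`, `x (1 + δ)`: `2 N ≤ N ^ (1 + δ)` for large `N`, and `log (1 + δ)` is small). -/
def StEX1 : Prop := ∀ (u i : ℕ) (η : ℝ), 1 ≤ u → 50 ≤ i → 0 < η → ∀ᶠ N : ℕ in atTop,
  ∑ p ∈ bq N (1 / (100 * u)) i, (1 : ℝ) / p ≤ 1 ∧ ∀ n ∈ Ioc N (2 * N),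
    Gb n (1 / (100 * u)) (gn n) i ≤ gm i + η + |∑ p ∈ bq N (1 / (100 * u)) i, sx n p / p|

open Classical in
/-- (EX2, assume `hB : StEXB`, `h1 : StEX1`, `hA : StAB`.) The exceptional set in `(N, 2 N]`. PROOF. `ω = 1 / (100 u)`. Let `I` be the set of the boxes `i` with `j0 ≤ i < 19 u`, `21 u ≤ i < 29 u` or `41 u ≤ i < 59 u` (`kf1 = 1`). The other boxes of GD satisfy `Gb ≤ 2 gm i + η` for large `n` (AB). If `n ∈ (N, 2 N]` is counted, then for some `i ∈ I` by EX1 with `η / 2`: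
`|∑_{p ∈ bq N ω i} sx n p / p| ≥ η / 2`. EXB with `P = N ^ (i ω)`, `P₂ = N ^ ((i + 1) ω)` and `m` with `m i ω ≥ 41/100`, `m (i + 1) ω ≤ 594/1000`: `m = 1` for `i ≥ 41 u`, `m = 2` for `21 u ≤ i < 29 u`, `m = ⌈41/100 / (i ω)⌉` for `i < 19 u` (then `m i ω ≤ 0.57`: `m ≤ 3` for `i ω ≥ 41/300`, and
`m i ω < 0.41 + i ω ≤ 0.5467` otherwise; `m ω ≤ 0.41 / j0 + ω ≤ 0.02` as `j0 ≥ 50`, `u ≥ 3`). So the number is at most `|I| C (1 + log N) 2 N ^ (594/1000) ≤ N ^ (595/1000)` for large `N`. -/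
def StEX2 : Prop := ∀ (u j0 : ℕ) (η : ℝ), 50 ≤ j0 → j0 ≤ 19 * u → 0 < η → ∀ᶠ N : ℕ in atTop,
  (((Ioc N (2 * N)).filter (fun n => ¬ GD 1 19 78 kf1 u j0 η n)).card : ℝ) ≤ (N : ℝ) ^ (595 / 1000 : ℝ)

/-- (EXA, assume `h2 : StEX2`.) Dyadic summation. PROOF. `E` consists of the `n < √N` (at most `√N`) and of the exceptional `n` of the ranges `(2 ^ k, 2 ^ (k + 1)]`, `√N / 2 - 1 ≤ 2 ^ k ≤ N`, which cover `[√N, N]`; each has at most `(2 ^ k) ^ (595/1000) ≤ N ^ (595/1000)` of them and there are at most `2 + 2 log N` ranges.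
Compare `Helper85/KP/M_FNP.lean`. -/
def StEXA : Prop := ∀ (u j0 : ℕ) (η : ℝ), 50 ≤ j0 → j0 ≤ 19 * u → 0 < η → ∃ N₀ : ℕ, ∀ N : ℕ, N₀ ≤ N → ∃ E : Finset ℕ,
  (E.card : ℝ) ≤ (N : ℝ) ^ (598 / 1000 : ℝ) ∧ ∀ n ∈ Icc 1 N, n ∉ E → (N : ℝ) ^ (1 / 2 : ℝ) ≤ n ∧ GD 1 19 78 kf1 u j0 η n

/-- (FN3E, assume `hF : StFN3`, `hE : StEXA`.) PROOF. Combine: for large `N` every `n ≤ N` outside `E` is `≥ √N ≥ n₀` and has `GD`. -/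
def StFN3E : Prop := ∃ c : ℝ, 0 < c ∧ ∃ N₀ : ℕ, ∀ N : ℕ, N₀ ≤ N →
  (((Icc 1 N).filter (fun n => ((kr 3 n).card : ℝ) < c * n / Real.log n ^ 3)).card : ℝ) ≤ (N : ℝ) ^ (3 / 5 : ℝ)

end Pool.Agent.Helper93.KS
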