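import Pool.Agent.Helper93.KS.St2

/-!
# Project KS (MP_77e955_nt), third part: at most `C` exceptional `n` in every interval `(N, 2 N]`

THEOREM 4. There is a constant `C` such that for all large `N` all but at most `C` of the `n ∈ (N, 2 N]` have at least `c n / (log n) ^ 3` numbers `k ≤ n / 2` such
that `k (n - k) - 1` has at most three prime factors.

Overview. As the second part, but instead of the large sieve the duality principle with upper bound sieve weights `σ` for the integers without small prime factors: if `R` characters `ψ_n` have a large sum over the primes of the box, then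
`R ^ 2 η ^ (2 m) ≤ C ∑_M (σ M / M) |∑_n c_n ψ_n M| ^ 2 ≤ C' R`, because the sums of `ψ_n ψ_n'` (`n ≠ n'`) over long intervals are small.
-/

set_option autoImplicit false

noncomputable section

namespace Pool.Agent.Helper93.KS

open Finset Filter Topology
open Pool.Agent.Helper15.AB (StMT)
open Pool.Agent.Helper18.TR (StBonf StFLmain StLevel)
open Pool.Agent.Helper9.TW (gm Qs fm)
open Pool.Agent.Helper93.KP (gk vk tk rn gn TK qk StRTS)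

/-- (SIG, assume `hB : StBonf`, `hF : StFLmain`, `hL : StLevel`, `hM : StMT`.) Upper bound sieve weights. PROOF. `b` (even) from StFLmain with `κ = 1`, `ε = 1`, `B` from StLevel, `θ' = min θ (1 / (B + 1))`, `σ M = ∑_{D ∈ fm 0 N θ' b} (-1) ^ |D| 1[∏ D ∣ M]`. StBonf with `g p = 1[p ∣ M]` (`∏_{p ∈ D} g p = 1[∏ D ∣ M]`): `σ ≥ 0`, and
`σ M ≥ 1` if no prime of `Qs N θ'` divides `M`. The numbers `d = ∏ D` are `≤ N`, different `D` give different `d`: at most `N` sets `D`. `∑_D (-1) ^ |D| / ∏ D ≤ 2 ∏_{p ∈ Qs} (1 - 1 / p) ≤ 2 exp(- ∑_{p ∈ Qs} 1 / p) ≤ C₀ / log N` (StFLmain with `g p = 1 / p`; StMT). For `N ^ 3 ≤ X ≤ Y`: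
`∑_{M ∈ (X, Y], d ∣ M} 1 / M = (1/d) ∑_{k ∈ (⌊X/d⌋, ⌊Y/d⌋]} 1 / k = (1/d) (log (Y/X) + O(d / X))`, and `∑_{M ∈ (X, Y], d ∣ M} χ M / M = (χ d / d) ∑_{k ∈ (⌊X/d⌋, ⌊Y/d⌋]} χ k / k`, at most `(1/d) K / ⌊X/d⌋ ≤ 2 K / X` in absolute value; sum over the at most `N` sets `D`. -/
def StSIG : Prop := ∀ θ : ℝ, 0 < θ → θ ≤ 1 → ∃ C : ℝ, 0 < C ∧ ∀ᶠ N : ℕ in atTop, ∃ σ : ℕ → ℝ,
  (∀ M, 0 ≤ σ M) ∧ (∀ M : ℕ, 1 ≤ M → (∀ p : ℕ, p.Prime → p ∣ M → (N : ℝ) ^ θ ≤ (p : ℝ)) → 1 ≤ σ M) ∧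
  (∀ X Y : ℕ, N ^ 3 ≤ X → X ≤ Y → ∑ M ∈ Ioc X Y, σ M / M ≤ C * (1 + Real.log ((Y : ℝ) / X) / Real.log N)) ∧
  ∀ (χ : ℕ → ℂ) (K : ℝ), (∀ k l, χ (k * l) = χ k * χ l) → (∀ k, ‖χ k‖ ≤ 1) → 0 ≤ K →
    (∀ X' Y' : ℕ, 1 ≤ X' → X' ≤ Y' → ‖∑ k ∈ Ioc X' Y', χ k / k‖ ≤ K / X') →
    ∀ X Y : ℕ, N ^ 3 ≤ X → X ≤ Y → ‖∑ M ∈ Ioc X Y, (σ M : ℂ) * χ M / M‖ ≤ K * (N : ℝ) ^ 2 / X

/-- (OFS, no hypotheses.) Sums of the product of two different primitive characters. PROOF. The product of `ψ` and the inverse of `ψ'`, lifted to modulus `f f'`, is a nonprincipal character `χ` with the values `ψ k * conj (ψ' k)` (at all `k`: both are `0` unless `k` is prime to `f f'`): if it were principal, `ψ` and `ψ'` would agree at all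
`k` prime to `f f'`, so they would induce the same character modulo `f f'`, and primitive characters inducing the same character are equal. So the sum over a period is `0` (`MulChar.sum_eq_zero_of_ne_one`), all sums over intervals of consecutive integers are `≤ f f'` in absolute value, and Abel summation with the decreasing
function `1 / k`. -/
def StOFS : Prop := ∀ (f f' : ℕ) (_ : NeZero f) (_ : NeZero f') (ψ : DirichletCharacter ℂ f) (ψ' : DirichletCharacter ℂ f'),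
  ψ.IsPrimitive → ψ'.IsPrimitive → (∃ k : ℕ, ψ (k : ZMod f) ≠ ψ' (k : ZMod f')) → ∀ X Y : ℕ, 1 ≤ X → X ≤ Y →
  ‖∑ k ∈ Ioc X Y, ψ (k : ZMod f) * (starRingEnd ℂ) (ψ' (k : ZMod f')) / k‖ ≤ ((f : ℝ) * f') / X

/-- (DUA, assume `hS : StSIG`, `hO : StOFS`.) Duality. PROOF. `R = |E|`; `T_M` = number of the tuples in `S ^ m` with product `M`; `T_M ≤ m ^ m` (the entries are among the at most `m` prime factors of `M`), `X + 1 = ⌈N ^ (a m)⌉`, `Y = ⌊N ^ (b m)⌋`, all `M` with `T_M ≠ 0` are in `(X, Y]` and have all prime factors `≥ N ^ a`; `σ` from SIG with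
`θ = min a 1`. Choose `|c_n| = 1` with `c_n (∑_{p ∈ S} ψ_n p / p) ^ m = |..| ^ m ≥ δ ^ m`. By Cauchy-Schwarz `R δ ^ m ≤ ∑_M (T_M / M) |∑_n c_n ψ_n M|` and `(R δ ^ m) ^ 2 ≤ (∑_M T_M ^ 2 / M)(∑_{M ∈ (X, Y]} (σ M / M) |∑_n c_n ψ_n M| ^ 2)`. The first factor is at most `m ^ m (∑_{p ∈ S} 1 / p) ^ m ≤ m ^ m`. Expand the second
one: `n = n'` gives at most `∑ σ M / M ≤ C (1 + log (Y/X) / log N) ≤ C (3 + b m)`, each pair `n ≠ n'` at most `256 N ^ 4 N ^ 2 / X ≤ 512 N ^ (-6)` (SIG for `χ k = ψ_n k conj (ψ_n' k)`, `K = f_n f_n' ≤ 256 N ^ 4` by OFS). So `R ^ 2 δ ^ (2 m) ≤ m ^ m (C (3 + b m) R + 512 R ^ 2 N ^ (-6)) ≤ C' R`. -/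
def StDUA : Prop := ∀ (m : ℕ) (a b : ℝ), 1 ≤ m → 0 < a → a ≤ b → 12 ≤ a * m → ∃ C : ℝ, 0 < C ∧ ∀ᶠ N : ℕ in atTop,
  ∀ (δ : ℝ) (S E : Finset ℕ) (f : ℕ → ℕ) (_ : ∀ n, NeZero (f n)) (ψ : (n : ℕ) → DirichletCharacter ℂ (f n)), 0 < δ →
  (∀ p ∈ S, p.Prime ∧ (N : ℝ) ^ a ≤ (p : ℝ) ∧ (p : ℝ) ≤ (N : ℝ) ^ b) → ∑ p ∈ S, (1 : ℝ) / p ≤ 1 →
  (∀ n ∈ E, (ψ n).IsPrimitive ∧ f n ≤ 16 * N ^ 2) → E.card ≤ 2 * N →
  (∀ n ∈ E, ∀ n' ∈ E, n ≠ n' → ∃ k : ℕ, ψ n (k : ZMod (f n)) ≠ ψ n' (k : ZMod (f n'))) →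
  (∀ n ∈ E, δ ≤ ‖∑ p ∈ S, ψ n (p : ZMod (f n)) / p‖) → (E.card : ℝ) * δ ^ (2 * m) ≤ C

open Classical in
/-- (DYC, assume `hP : StPSI`, `hD : StDUA`, `hM : Pool.Agent.Helper60.GP.StM2`.) One box. PROOF. `a = i ω`, `b = (i + 1) ω`, `ω = 1 / (100 u)`, `P = N ^ a`. For `n ∈ (N, 2 N]` the sum `∑_{p ∈ bq N ω i} (sx n p - ψ n p) / p` has terms only for the at most `2 log₂ (2 N)` primes `p ∣ n ^ 2 - 4` and is at most
`4 log₂ (2 N) / P ≤ η / 2` in absolute value for large `N`. So for a counted `n` `‖∑_{p ∈ bq N ω i} ψ n p / p‖ ≥ η / 2`. DUA with `S = bq N ω i` (`∑ 1 / p ≤ 1` for large `N`: StM2 with `z = N`, the limit is `log ((i + 1) / i) ≤ log 2`), `δ = η / 2`, `m = ⌈12 / a⌉`. (`f n ≤ 4 n ^ 2 ≤ 16 N ^ 2`.) -/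
def StDYC : Prop := ∀ (u i : ℕ) (η : ℝ), 1 ≤ u → 1 ≤ i → 0 < η → ∃ C : ℕ, ∀ᶠ N : ℕ in atTop,
  ((Ioc N (2 * N)).filter (fun n => η ≤ |∑ p ∈ bq N (1 / (100 * u)) i, sx n p / p|)).card ≤ C

open Classical in
/-- (EXC, assume `hD : StDYC`, `h1 : StEX1`, `hA : StAB`.) PROOF. As EX2 (`Helper55/KS/M_EX2.lean`) with DYC instead of EXB: the boxes with `kf1 = 2` satisfy GD for large `n` (AB); for the finitely many others use EX1 and DYC with `η / 2`, and add the constants. -/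
def StEXC : Prop := ∀ (u j0 : ℕ) (η : ℝ), 50 ≤ j0 → j0 ≤ 19 * u → 0 < η → ∃ C : ℕ, ∀ᶠ N : ℕ in atTop,
  ((Ioc N (2 * N)).filter (fun n => ¬ GD 1 19 78 kf1 u j0 η n)).card ≤ C

end Pool.Agent.Helper93.KS
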